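import Pool.Agent.Lib.MP_4e0942_nt.Unip

/-!
Closed subgroups of `SL₂(ℤ_p)`: approximation, the one parameter groups `T x`, and lifting.
-/

namespace Pool.Agent.Lib.MP_4e0942_nt

open Matrix Filter Topology

variable {p : ℕ} [hp : Fact p.Prime]

/-- the underlying set of matrices is closed -/
def ClosedSL (S : Subgroup (SpecialLinearGroup (Fin 2) ℤ_[p])) : Prop :=
  IsClosed {M : Matrix (Fin 2) (Fin 2) ℤ_[p] | ∃ s ∈ S, s.1 = M}

lemma mem_of_approx (S : Subgroup (SpecialLinearGroup (Fin 2) ℤ_[p])) (hS : ClosedSL S)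
    (g : SpecialLinearGroup (Fin 2) ℤ_[p])
    (h : ∀ n : ℕ, ∃ s ∈ S, ∃ Y : Matrix (Fin 2) (Fin 2) ℤ_[p], s.1 = g.1 + (p : ℤ_[p]) ^ n • Y) :
    g ∈ S := by
  choose s hs Y hY using h
  have hlim : Tendsto (fun n => (s n).1) atTop (𝓝 g.1) := by
    refine tendsto_pi_nhds.2 fun i => tendsto_pi_nhds.2 fun j => ?_
    rw [tendsto_iff_norm_sub_tendsto_zero]
    have hb : ∀ n, ‖(s n).1 i j - g.1 i j‖ ≤ (1 / (p : ℝ)) ^ n := by
      intro n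
      have e : (s n).1 i j - g.1 i j = (p : ℤ_[p]) ^ n * (Y n) i j := by
        rw [hY n]; simp [Matrix.add_apply, Matrix.smul_apply]
      rw [e, norm_mul, norm_pow, PadicInt.norm_p, one_div]
      have := PadicInt.norm_le_one ((Y n) i j)
      have h0 : (0:ℝ) ≤ ((p:ℝ)⁻¹) ^ n := by positivity
      nlinarith
    have h1 : (1 : ℝ) < p := by exact_mod_cast hp.1.one_lt
    have h2 : Tendsto (fun n : ℕ => (1 / (p : ℝ)) ^ n) atTop (𝓝 0) :=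
      tendsto_pow_atTop_nhds_zero_of_lt_one (by positivity) (by
        rw [div_lt_one (by positivity)]; exact h1)
    exact squeeze_zero (fun n => norm_nonneg _) hb h2
  have hmem : g.1 ∈ {M : Matrix (Fin 2) (Fin 2) ℤ_[p] | ∃ s ∈ S, s.1 = M} :=
    hS.mem_of_tendsto hlim (Eventually.of_forall fun n => ⟨s n, hs n, rfl⟩)
  obtain ⟨t, ht, e⟩ := hmem
  have : t = g := Subtype.ext e
  rwa [← this]

lemma T_all (S : Subgroup (SpecialLinearGroup (Fin 2) ℤ_[p])) (hS : ClosedSL S)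
    (x0 x1 c : ℤ_[p]) (hc : IsUnit c) (h : T x0 x1 c ∈ S) (z : ℤ_[p]) : T x0 x1 z ∈ S := by
  apply mem_of_approx S hS
  intro n
  obtain ⟨u, rfl⟩ := hc
  obtain ⟨w, hw⟩ : ∃ w, z * (↑u⁻¹ : ℤ_[p]) - ((z * (↑u⁻¹ : ℤ_[p])).appr n : ℤ_[p]) = (p : ℤ_[p]) ^ n * w := by
    have := PadicInt.appr_spec n (z * (↑u⁻¹ : ℤ_[p]))
    rw [Ideal.mem_span_singleton] at this
    obtain ⟨w, hw⟩ := this
    exact ⟨w, hw⟩
  refine ⟨T x0 x1 u ^ ((z * (↑u⁻¹ : ℤ_[p])).appr n), S.pow_mem h _,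
    (-(w * u)) • !![-(x0 * x1), x0 ^ 2; -(x1 ^ 2), x0 * x1], ?_⟩
  rw [T_pow, T_coe, T_coe]
  have hu : (↑u : ℤ_[p]) * ↑u⁻¹ = 1 := by simp
  have e : (((z * (↑u⁻¹ : ℤ_[p])).appr n : ℕ) : ℤ_[p]) * u = z - (p : ℤ_[p]) ^ n * w * u := by
    have : (((z * (↑u⁻¹ : ℤ_[p])).appr n : ℕ) : ℤ_[p]) = z * ↑u⁻¹ - (p : ℤ_[p]) ^ n * w := by
      rw [← hw]; ring
    rw [this]; linear_combination z * hu
  rw [e]
  ext i j
  fin_cases i <;> fin_cases j <;> simp [Matrix.add_apply, Matrix.smul_apply] <;> ring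

/-- A closed subgroup which is stable under conjugation by `g` and contains `T x c`, `c` a unit,
`x` and `g x` independent modulo `p`, is everything. -/
lemma eq_top_of_T (S : Subgroup (SpecialLinearGroup (Fin 2) ℤ_[p])) (hS : ClosedSL S)
    (g : GL (Fin 2) ℤ_[p])
    (hg : ∀ s ∈ S, ∀ t : SpecialLinearGroup (Fin 2) ℤ_[p], g.1 * s.1 = t.1 * g.1 → t ∈ S)
    (x0 x1 c : ℤ_[p]) (hc : IsUnit c) (h : T x0 x1 c ∈ S)
    (hu : IsUnit (x0 * (g.1 1 0 * x0 + g.1 1 1 * x1) - x1 * (g.1 0 0 * x0 + g.1 0 1 * x1))) :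
    S = ⊤ := by
  refine gen_T S x0 x1 (g.1 0 0 * x0 + g.1 0 1 * x1) (g.1 1 0 * x0 + g.1 1 1 * x1) hu
    (T_all S hS x0 x1 c hc h) ?_
  have hd : IsUnit g.1.det := (Matrix.isUnit_iff_isUnit_det _).1 g.isUnit
  obtain ⟨d, hd⟩ := hd
  have hm : T (g.1 0 0 * x0 + g.1 0 1 * x1) (g.1 1 0 * x0 + g.1 1 1 * x1) (c * ↑d⁻¹) ∈ S := by
    apply hg _ h
    apply T_conj
    rw [← hd, mul_assoc]; simp
  exact T_all S hS _ _ _ (hc.mul (Units.isUnit _)) hm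

end Pool.Agent.Lib.MP_4e0942_nt
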