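import Pool.Agent.Lib.MP_4e0942_nt.Rep

/-!
The cokernel condition of (Im) and unipotent matrices.
-/

namespace Pool.Agent.Lib.MP_4e0942_nt

open Matrix

variable {p : ℕ} [hp : Fact p.Prime]

lemma T_of_coker (h : Matrix (Fin 2) (Fin 2) ℤ_[p]) (hdet : h.det = 1)
    (hfree : Module.Free ℤ_[p] ((Fin 2 → ℤ_[p]) ⧸ LinearMap.range (Matrix.mulVecLin (h - 1))))
    (hrank : Module.finrank ℤ_[p]
      ((Fin 2 → ℤ_[p]) ⧸ LinearMap.range (Matrix.mulVecLin (h - 1))) = 1) :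
    ∃ x0 x1 c : ℤ_[p], IsUnit c ∧ (IsUnit x0 ∨ IsUnit x1) ∧ h = (T x0 x1 c).1 := by
  set f := h - 1 with hf
  let e : ((Fin 2 → ℤ_[p]) ⧸ LinearMap.range (Matrix.mulVecLin f)) ≃ₗ[ℤ_[p]] ℤ_[p] :=
    LinearEquiv.ofFinrankEq _ _ (by rw [hrank, Module.finrank_self])
  let φ : (Fin 2 → ℤ_[p]) →ₗ[ℤ_[p]] ℤ_[p] :=
    e.toLinearMap.comp (Submodule.mkQ (LinearMap.range (Matrix.mulVecLin f)))
  have hφs : Function.Surjective φ := e.surjective.comp (Submodule.mkQ_surjective _)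
  have hφk : ∀ v, φ v = 0 ↔ ∃ y, f *ᵥ y = v := by
    intro v
    have h1 : φ v = e (Submodule.mkQ (LinearMap.range (Matrix.mulVecLin f)) v) := rfl
    rw [h1, LinearEquiv.map_eq_zero_iff, Submodule.mkQ_apply, Submodule.Quotient.mk_eq_zero,
      LinearMap.mem_range]
    simp [Matrix.mulVecLin_apply]
  set a0 := φ ![1, 0] with ha0
  set a1 := φ ![0, 1] with ha1
  have hφ : ∀ v : Fin 2 → ℤ_[p], φ v = v 0 * a0 + v 1 * a1 := by
    intro v
    have : v = v 0 • ![1, 0] + v 1 • ![0, 1] := by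
      ext i; fin_cases i <;> simp
    conv_lhs => rw [this]
    rw [map_add, map_smul, map_smul, smul_eq_mul, smul_eq_mul]
  have hunit : IsUnit a0 ∨ IsUnit a1 := by
    obtain ⟨v, hv⟩ := hφs 1
    rw [hφ] at hv
    by_contra hcon
    push Not at hcon
    have m0 : a0 ∈ IsLocalRing.maximalIdeal ℤ_[p] := hcon.1
    have m1 : a1 ∈ IsLocalRing.maximalIdeal ℤ_[p] := hcon.2
    have : (1 : ℤ_[p]) ∈ IsLocalRing.maximalIdeal ℤ_[p] := by
      rw [← hv]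
      exact Ideal.add_mem _ (Ideal.mul_mem_left _ _ m0) (Ideal.mul_mem_left _ _ m1)
    exact (IsLocalRing.maximalIdeal.isMaximal ℤ_[p]).ne_top ((Ideal.eq_top_iff_one _).2 this)
  obtain ⟨y, hy⟩ := (hφk ![-a1, a0]).1 (by rw [hφ]; simp; ring)
  have hy0 := congrFun hy 0
  have hy1 := congrFun hy 1
  simp [Matrix.mulVec, dotProduct, Fin.sum_univ_two] at hy0 hy1
  have c0 : f 0 0 * a0 + f 1 0 * a1 = 0 := by
    have := (hφk (f *ᵥ ![1, 0])).2 ⟨_, rfl⟩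
    rw [hφ] at this
    simpa [Matrix.mulVec, dotProduct, Fin.sum_univ_two] using this
  have c1 : f 0 1 * a0 + f 1 1 * a1 = 0 := by
    have := (hφk (f *ᵥ ![0, 1])).2 ⟨_, rfl⟩
    rw [hφ] at this
    simpa [Matrix.mulVec, dotProduct, Fin.sum_univ_two] using this
  have hh : h = 1 + f := by rw [hf]; abel
  rw [hh, Matrix.det_fin_two] at hdet
  simp at hdet
  -- columns are multiples of `(-a1, a0)`
  obtain ⟨ψ0, e00, e10⟩ : ∃ ψ, f 0 0 = -a1 * ψ ∧ f 1 0 = a0 * ψ := by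
    rcases hunit with ⟨u, hu⟩ | ⟨u, hu⟩
    · have hu1 : a0 * ↑u⁻¹ = 1 := by rw [← hu]; simp
      exact ⟨f 1 0 * ↑u⁻¹, by linear_combination (-(f 0 0)) * hu1 + (↑u⁻¹ : ℤ_[p]) * c0,
        by linear_combination (-(f 1 0)) * hu1⟩
    · have hu1 : a1 * ↑u⁻¹ = 1 := by rw [← hu]; simp
      exact ⟨-(f 0 0 * ↑u⁻¹), by linear_combination (-(f 0 0)) * hu1,
        by linear_combination (-(f 1 0)) * hu1 + (↑u⁻¹ : ℤ_[p]) * c0⟩
  obtain ⟨ψ1, e01, e11⟩ : ∃ ψ, f 0 1 = -a1 * ψ ∧ f 1 1 = a0 * ψ := by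
    rcases hunit with ⟨u, hu⟩ | ⟨u, hu⟩
    · have hu1 : a0 * ↑u⁻¹ = 1 := by rw [← hu]; simp
      exact ⟨f 1 1 * ↑u⁻¹, by linear_combination (-(f 0 1)) * hu1 + (↑u⁻¹ : ℤ_[p]) * c1,
        by linear_combination (-(f 1 1)) * hu1⟩
    · have hu1 : a1 * ↑u⁻¹ = 1 := by rw [← hu]; simp
      exact ⟨-(f 0 1 * ↑u⁻¹), by linear_combination (-(f 0 1)) * hu1,
        by linear_combination (-(f 1 1)) * hu1 + (↑u⁻¹ : ℤ_[p]) * c1⟩
  have htr : a0 * ψ1 = a1 * ψ0 := by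
    rw [e00, e10, e01, e11] at hdet
    linear_combination hdet
  obtain ⟨c, hc0, hc1⟩ : ∃ c, ψ0 = c * a0 ∧ ψ1 = c * a1 := by
    rcases hunit with ⟨u, hu⟩ | ⟨u, hu⟩
    · have hu1 : a0 * ↑u⁻¹ = 1 := by rw [← hu]; simp
      exact ⟨ψ0 * ↑u⁻¹, by linear_combination (-ψ0) * hu1,
        by linear_combination (-ψ1) * hu1 + (↑u⁻¹ : ℤ_[p]) * htr⟩
    · have hu1 : a1 * ↑u⁻¹ = 1 := by rw [← hu]; simp
      exact ⟨ψ1 * ↑u⁻¹, by linear_combination (-ψ0) * hu1 - (↑u⁻¹ : ℤ_[p]) * htr,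
        by linear_combination (-ψ1) * hu1⟩
  refine ⟨-a1, a0, -c, ?_, ?_, ?_⟩
  · rw [IsUnit.neg_iff]
    rw [e00, e01, hc0, hc1] at hy0
    rw [e10, e11, hc0, hc1] at hy1
    rcases hunit with ⟨u, hu⟩ | ⟨u, hu⟩
    · have hu1 : a0 * ↑u⁻¹ = 1 := by rw [← hu]; simp
      refine IsUnit.of_mul_eq_one (a0 * y 0 + a1 * y 1) ?_
      linear_combination (↑u⁻¹ : ℤ_[p]) * hy1 - (c * (a0 * y 0 + a1 * y 1) - 1) * hu1
    · have hu1 : a1 * ↑u⁻¹ = 1 := by rw [← hu]; simp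
      refine IsUnit.of_mul_eq_one (a0 * y 0 + a1 * y 1) ?_
      linear_combination (-(↑u⁻¹ : ℤ_[p])) * hy0 - (c * (a0 * y 0 + a1 * y 1) - 1) * hu1
  · rcases hunit with h | h
    · exact Or.inr h
    · exact Or.inl h.neg
  · rw [hh, T_coe]
    ext i j
    fin_cases i <;> fin_cases j <;> simp
    · rw [e00, hc0]; ring
    · rw [e01, hc1]; ring
    · rw [e10, hc0]; ring
    · rw [e11, hc1]; ring

lemma coker_of_T : Module.Free ℤ_[p] ((Fin 2 → ℤ_[p]) ⧸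
      LinearMap.range (Matrix.mulVecLin ((T (1 : ℤ_[p]) 0 1).1 - 1))) ∧
    Module.finrank ℤ_[p] ((Fin 2 → ℤ_[p]) ⧸
      LinearMap.range (Matrix.mulVecLin ((T (1 : ℤ_[p]) 0 1).1 - 1))) = 1 := by
  have hk : LinearMap.range (Matrix.mulVecLin ((T (1 : ℤ_[p]) 0 1).1 - 1)) =
      LinearMap.ker (LinearMap.proj (R := ℤ_[p]) (φ := fun _ : Fin 2 => ℤ_[p]) 1) := by
    ext v
    rw [LinearMap.mem_range, LinearMap.mem_ker, LinearMap.proj_apply]
    constructor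
    · rintro ⟨y, rfl⟩
      rw [Matrix.mulVecLin_apply, T_coe]
      simp [Matrix.mulVec, dotProduct, Fin.sum_univ_two, Matrix.sub_apply]
    · intro hv
      refine ⟨![0, v 0], ?_⟩
      rw [Matrix.mulVecLin_apply, T_coe]
      ext i
      fin_cases i
      · simp [Matrix.mulVec, dotProduct, Fin.sum_univ_two, Matrix.sub_apply]
      · simp [Matrix.mulVec, dotProduct, Fin.sum_univ_two, Matrix.sub_apply, hv]
  have hs : Function.Surjective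
      (LinearMap.proj (R := ℤ_[p]) (φ := fun _ : Fin 2 => ℤ_[p]) 1) :=
    LinearMap.proj_surjective 1
  let e := (Submodule.quotEquivOfEq _ _ hk).trans
    (LinearMap.quotKerEquivOfSurjective _ hs)
  exact ⟨Module.Free.of_equiv e.symm, by rw [e.finrank_eq, Module.finrank_self]⟩

end Pool.Agent.Lib.MP_4e0942_nt
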