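import Mathlib

/-!
Definitions for `MP_4e0942_nt`: a two-dimensional `p`-adic representation
`ρ : G_ℚ → M₂(ℤ_p)` (its values are invertible, as `G_ℚ` is a group) and condition (Im).
-/

namespace Pool.Agent.Lib.MP_4e0942_nt

open Matrix

/-- The absolute Galois group of `ℚ`, with the Krull topology. -/
abbrev GQ : Type := Gal(AlgebraicClosure ℚ/ℚ)

/-- `2 × 2` matrices. -/
abbrev M2 (R : Type) : Type := Matrix (Fin 2) (Fin 2) R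

/-- `τ` fixes every root of unity of `p`-power order, i.e. `τ ∈ Gal(ℚ̄/ℚ(μ_{p^∞}))`. -/
def FixesMu (p : ℕ) (τ : GQ) : Prop :=
  ∀ (n : ℕ) (ζ : AlgebraicClosure ℚ), ζ ^ p ^ n = 1 → τ ζ = ζ

variable {p : ℕ} [Fact p.Prime]

/-- `det ρ` is the `p`-adic cyclotomic character: `σ ζ = ζ ^ det ρ(σ)` for `ζ ∈ μ_{p^n}`. -/
def CyclotomicDet (ρ : GQ → M2 ℤ_[p]) : Prop :=
  ∀ (σ : GQ) (n : ℕ) (ζ : AlgebraicClosure ℚ), ζ ^ p ^ n = 1 →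
    σ ζ = ζ ^ (PadicInt.toZModPow n (ρ σ).det).val

/-- Condition (Im): for some `τ ∈ Gal(ℚ̄/ℚ(μ_{p^∞}))` the module `T / (ρ(τ) - 1) T`, `T = ℤ_p²`,
is free of rank one, i.e. isomorphic to `ℤ_p`. -/
def Im (ρ : GQ → M2 ℤ_[p]) : Prop :=
  ∃ τ : GQ, FixesMu p τ ∧
    Nonempty (((Fin 2 → ℤ_[p]) ⧸ LinearMap.range (Matrix.mulVecLin (ρ τ - 1))) ≃ₗ[ℤ_[p]] ℤ_[p])

/-- Reduction of a matrix modulo `p`. -/
noncomputable def red (M : M2 ℤ_[p]) : M2 (ZMod p) :=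
  fun i j => PadicInt.toZMod (M i j)

/-- `ρ` is irreducible modulo `p`: no line of `𝔽_p²` is stable. -/
def ResIrreducible (ρ : GQ → M2 ℤ_[p]) : Prop :=
  ∀ x : Fin 2 → ZMod p, x ≠ 0 → ∃ σ : GQ, ∀ c : ZMod p, red (ρ σ) *ᵥ x ≠ c • x

/-- Some `ρ(σ)` modulo `p` has eigenvalues `1` and a generator of `𝔽_p^×`. -/
def HasTorusElement (ρ : GQ → M2 ℤ_[p]) : Prop :=
  ∃ (σ : GQ) (g : ZMod p), (∀ y : ZMod p, y ≠ 0 → ∃ k : ℕ, y = g ^ k) ∧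
    (red (ρ σ)).trace = 1 + g ∧ (red (ρ σ)).det = g

/-- The image of `ρ` modulo `p` permutes two different lines of `𝔽_p²`, the lines of the
independent vectors `x` and `y` (it lies in the normaliser of a split Cartan subgroup). -/
def PermutesTwoLines (ρ : GQ → M2 ℤ_[p]) : Prop :=
  ∃ x y : Fin 2 → ZMod p, x 0 * y 1 - x 1 * y 0 ≠ 0 ∧ ∀ σ : GQ,
    ((∃ a : ZMod p, red (ρ σ) *ᵥ x = a • x) ∧ ∃ b : ZMod p, red (ρ σ) *ᵥ y = b • y) ∨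
    ((∃ a : ZMod p, red (ρ σ) *ᵥ x = a • y) ∧ ∃ b : ZMod p, red (ρ σ) *ᵥ y = b • x)

end Pool.Agent.Lib.MP_4e0942_nt
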