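import Pool.Agent.Lib.MP_4e0942_nt.Resid

/-!
A subgroup of `GL₂(𝔽_p)`, `p ≥ 7`, of order prime to `p`, which contains a matrix with
eigenvalues `1` and a generator of `𝔽_p^×`, permutes the two eigenlines of that matrix.
-/

namespace Pool.Agent.Lib.MP_4e0942_nt

open Matrix

variable {p : ℕ} [hp : Fact p.Prime]

/-- two elements of a group of order prime to `p` with a common eigenvector commute -/
lemma comm_of_eig (H : Subgroup (GL (Fin 2) (ZMod p))) (hH : ¬ p ∣ Nat.card H)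
    (u v : GL (Fin 2) (ZMod p)) (hu : u ∈ H) (hv : v ∈ H) (x : Fin 2 → ZMod p) (hx : x ≠ 0)
    (a b : ZMod p) (hua : u.1 *ᵥ x = a • x) (hvb : v.1 *ᵥ x = b • x) : u * v = v * u := by
  have hk : u * v * (v * u)⁻¹ ∈ H := H.mul_mem (H.mul_mem hu hv) (H.inv_mem (H.mul_mem hv hu))
  set k := u * v * (v * u)⁻¹ with hkdef
  have hkvu : k * (v * u) = u * v := by rw [hkdef, inv_mul_cancel_right]
  have hkm : k.1 * (v.1 * u.1) = u.1 * v.1 := by
    have := congrArg Units.val hkvu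
    simpa using this
  have hvu : (v.1 * u.1) *ᵥ x = (a * b) • x := by
    rw [← Matrix.mulVec_mulVec, hua, Matrix.mulVec_smul, hvb, smul_smul]
  have huv : (u.1 * v.1) *ᵥ x = (a * b) • x := by
    rw [← Matrix.mulVec_mulVec, hvb, Matrix.mulVec_smul, hua, smul_smul, mul_comm]
  have hab : a * b ≠ 0 := by
    intro h0
    rw [h0, zero_smul] at hvu
    have hinj := Matrix.mulVec_injective_of_isUnit (A := v.1 * u.1) (v.isUnit.mul u.isUnit)
    apply hx
    apply hinj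
    simp [hvu]
  have hkx : k.1 *ᵥ x = x := by
    have h1 : (k.1 * (v.1 * u.1)) *ᵥ x = (a * b) • x := by rw [hkm, huv]
    rw [← Matrix.mulVec_mulVec, hvu, Matrix.mulVec_smul] at h1
    have := congrArg (fun y => (a * b)⁻¹ • y) h1
    simpa only [smul_smul, inv_mul_cancel₀ hab, one_smul] using this
  have hkdet : k.1.det = 1 := by
    have h1 := congrArg Matrix.det hkm
    rw [Matrix.det_mul, Matrix.det_mul, Matrix.det_mul] at h1
    have hv0 : v.1.det ≠ 0 := ((Matrix.isUnit_iff_isUnit_det _).1 v.isUnit).ne_zero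
    have hu0 : u.1.det ≠ 0 := ((Matrix.isUnit_iff_isUnit_det _).1 u.isUnit).ne_zero
    have : (k.1.det - 1) * (v.1.det * u.1.det) = 0 := by linear_combination h1
    have := (mul_eq_zero.1 this).resolve_right (mul_ne_zero hv0 hu0)
    exact sub_eq_zero.1 this
  have hx' : x 0 ≠ 0 ∨ x 1 ≠ 0 := by
    by_contra hcon
    push Not at hcon
    apply hx
    ext i
    fin_cases i
    · exact hcon.1
    · exact hcon.2
  have h0 : k.1 0 0 * x 0 + k.1 0 1 * x 1 = x 0 := by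
    have := congrFun hkx 0
    simpa [Matrix.mulVec, dotProduct, Fin.sum_univ_two] using this
  have h1 : k.1 1 0 * x 0 + k.1 1 1 * x 1 = x 1 := by
    have := congrFun hkx 1
    simpa [Matrix.mulVec, dotProduct, Fin.sum_univ_two] using this
  rw [Matrix.det_fin_two] at hkdet
  obtain ⟨z, hz⟩ := T_of_fix k.1 (x 0) (x 1) hx' h0 h1 hkdet
  have hk1 : k = 1 := by
    by_contra hne
    exact hH (dvd_card_of_T H _ _ _ k hk hz hne)
  rw [← hkvu, hk1, one_mul]

lemma ne_consts (hp7 : 7 ≤ p) : (2 : ZMod p) ≠ 0 ∧ (3 : ZMod p) ≠ 0 ∧ (5 : ZMod p) ≠ 0 := by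
  refine ⟨?_, ?_, ?_⟩ <;> intro h0
  · have : ((2 : ℕ) : ZMod p) = 0 := by exact_mod_cast h0
    rw [ZMod.natCast_eq_zero_iff] at this
    have := Nat.le_of_dvd (by norm_num) this
    omega
  · have : ((3 : ℕ) : ZMod p) = 0 := by exact_mod_cast h0
    rw [ZMod.natCast_eq_zero_iff] at this
    have := Nat.le_of_dvd (by norm_num) this
    omega
  · have : ((5 : ℕ) : ZMod p) = 0 := by exact_mod_cast h0
    rw [ZMod.natCast_eq_zero_iff] at this
    have := Nat.le_of_dvd (by norm_num) this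
    omega

/-- the matrix `diag(1, μ)` -/
def dg (μ : ZMod p) (hμ : μ ≠ 0) : GL (Fin 2) (ZMod p) :=
  Matrix.GeneralLinearGroup.mkOfDetNeZero !![1, 0; 0, μ] (by
    rw [Matrix.det_fin_two_of]; simpa using hμ)

lemma dg_coe (μ : ZMod p) (hμ : μ ≠ 0) : (dg μ hμ).1 = !![1, 0; 0, μ] := rfl

/-- an element of `H` with a zero entry is monomial -/
lemma mono_of_zero (H : Subgroup (GL (Fin 2) (ZMod p))) (hH : ¬ p ∣ Nat.card H)
    (g : ZMod p) (hg : g ≠ 0) (hg1 : g ≠ 1) (hc : dg g hg ∈ H) (w : GL (Fin 2) (ZMod p))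
    (hw : w ∈ H) (hz : w.1 0 0 = 0 ∨ w.1 0 1 = 0 ∨ w.1 1 0 = 0 ∨ w.1 1 1 = 0) :
    (w.1 0 1 = 0 ∧ w.1 1 0 = 0) ∨ (w.1 0 0 = 0 ∧ w.1 1 1 = 0) := by
  have hg1' : g - 1 ≠ 0 := sub_ne_zero.2 hg1
  have hwd : w.1.det ≠ 0 := ((Matrix.isUnit_iff_isUnit_det _).1 w.isUnit).ne_zero
  rw [Matrix.det_fin_two] at hwd
  -- an element of `H` commuting with `dg g` is diagonal
  have diag_of : ∀ v : GL (Fin 2) (ZMod p), v * dg g hg = dg g hg * v →
      v.1 0 1 = 0 ∧ v.1 1 0 = 0 := by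
    intro v hv
    have hm : v.1 * !![1, 0; 0, g] = !![1, 0; 0, g] * v.1 := by
      have := congrArg Units.val hv
      simpa [dg_coe] using this
    have h1 := congrFun (congrFun hm 0) 1
    have h2 := congrFun (congrFun hm 1) 0
    simp [Matrix.mul_apply, Fin.sum_univ_two] at h1 h2
    constructor
    · have : v.1 0 1 * (g - 1) = 0 := by linear_combination h1
      exact (mul_eq_zero.1 this).resolve_right hg1'
    · have : (g - 1) * v.1 1 0 = 0 := by linear_combination -h2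
      exact (mul_eq_zero.1 this).resolve_left hg1'
  have e1ne : (![1, 0] : Fin 2 → ZMod p) ≠ 0 := by
    intro h; have := congrFun h 0; simp at this
  have e2ne : (![0, 1] : Fin 2 → ZMod p) ≠ 0 := by
    intro h; have := congrFun h 1; simp at this
  have c1 : (dg g hg).1 *ᵥ ![1, 0] = (1 : ZMod p) • ![1, 0] := by
    rw [dg_coe]; ext i; fin_cases i <;> simp
  have c2 : (dg g hg).1 *ᵥ ![0, 1] = g • ![0, 1] := by
    rw [dg_coe]; ext i; fin_cases i <;> simp
  have hconj : w * dg g hg * w⁻¹ ∈ H := H.mul_mem (H.mul_mem hw hc) (H.inv_mem hw)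
  have hvw : (w * dg g hg * w⁻¹) * w = w * dg g hg := by simp
  have hvwm : (w * dg g hg * w⁻¹).1 * w.1 = w.1 * !![1, 0; 0, g] := by
    have := congrArg Units.val hvw
    rw [Units.val_mul, Units.val_mul w (dg g hg), dg_coe] at this
    exact this
  rcases hz with h | h | h | h
  · -- `w e1` is a multiple of `e2`
    right
    refine ⟨h, ?_⟩
    have hw10 : w.1 1 0 ≠ 0 := by
      intro h0; apply hwd; rw [h, h0]; ring
    have hw01 : w.1 0 1 ≠ 0 := by
      intro h0; apply hwd; rw [h, h0]; ring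
    have hv : (w * dg g hg * w⁻¹).1 *ᵥ ![0, 1] = (1 : ZMod p) • ![0, 1] := by
      have hwe : w.1 *ᵥ ![1, 0] = w.1 1 0 • ![0, 1] := by
        ext i; fin_cases i <;> simp [Matrix.mulVec, dotProduct, Fin.sum_univ_two, h]
      have h1 : ((w * dg g hg * w⁻¹).1 * w.1) *ᵥ ![1, 0] = w.1 1 0 • ![0, 1] := by
        rw [hvwm, ← Matrix.mulVec_mulVec, ← dg_coe g hg, c1, one_smul, hwe]
      rw [← Matrix.mulVec_mulVec, hwe, Matrix.mulVec_smul] at h1
      have := congrArg (fun y => (w.1 1 0)⁻¹ • y) h1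
      simpa only [smul_smul, inv_mul_cancel₀ hw10, one_smul] using this
    have hcomm := comm_of_eig H hH _ _ hconj hc ![0, 1] e2ne 1 g hv c2
    obtain ⟨h01, h10⟩ := diag_of _ hcomm
    have k1 := congrFun (congrFun hvwm 0) 1
    have k2 := congrFun (congrFun hvwm 1) 1
    have k3 := congrFun (congrFun hvwm 1) 0
    have k0 := congrFun (congrFun hvwm 0) 0
    generalize (w * dg g hg * w⁻¹).1 = v at *
    simp [Matrix.mul_apply, Fin.sum_univ_two, h01, h10, h] at k0 k1 k2 k3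
    -- β = 1, β w11 = g w11
    have hβ : v 1 1 = 1 := by
      have : (v 1 1 - 1) * w.1 1 0 = 0 := by linear_combination k3
      exact sub_eq_zero.1 ((mul_eq_zero.1 this).resolve_right hw10)
    rw [hβ] at k2
    have : (g - 1) * w.1 1 1 = 0 := by linear_combination -k2
    exact (mul_eq_zero.1 this).resolve_left hg1'
  · left
    have hw11 : w.1 1 1 ≠ 0 := by
      intro h0; apply hwd; rw [h, h0]; ring
    have hwe : w.1 *ᵥ ![0, 1] = w.1 1 1 • ![0, 1] := by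
      ext i; fin_cases i <;> simp [Matrix.mulVec, dotProduct, Fin.sum_univ_two, h]
    exact diag_of w (comm_of_eig H hH w _ hw hc ![0, 1] e2ne _ _ hwe c2)
  · left
    have hwe : w.1 *ᵥ ![1, 0] = w.1 0 0 • ![1, 0] := by
      ext i; fin_cases i <;> simp [Matrix.mulVec, dotProduct, Fin.sum_univ_two, h]
    exact diag_of w (comm_of_eig H hH w _ hw hc ![1, 0] e1ne _ _ hwe c1)
  · right
    refine ⟨?_, h⟩
    have hw10 : w.1 1 0 ≠ 0 := by
      intro h0; apply hwd; rw [h, h0]; ring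
    have hw01 : w.1 0 1 ≠ 0 := by
      intro h0; apply hwd; rw [h, h0]; ring
    have hv : (w * dg g hg * w⁻¹).1 *ᵥ ![1, 0] = g • ![1, 0] := by
      have hwe : w.1 *ᵥ ![0, 1] = w.1 0 1 • ![1, 0] := by
        ext i; fin_cases i <;> simp [Matrix.mulVec, dotProduct, Fin.sum_univ_two, h]
      have h1 : ((w * dg g hg * w⁻¹).1 * w.1) *ᵥ ![0, 1] = g • w.1 0 1 • ![1, 0] := by
        rw [hvwm, ← Matrix.mulVec_mulVec, ← dg_coe g hg, c2, Matrix.mulVec_smul, hwe]
      rw [← Matrix.mulVec_mulVec, hwe, Matrix.mulVec_smul] at h1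
      have := congrArg (fun y => (w.1 0 1)⁻¹ • y) h1
      simp only [smul_smul, inv_mul_cancel₀ hw01, one_smul] at this
      rw [this]
      congr 1
      field_simp
    have hcomm := comm_of_eig H hH _ _ hconj hc ![1, 0] e1ne g 1 hv c1
    obtain ⟨h01, h10⟩ := diag_of _ hcomm
    have k1 := congrFun (congrFun hvwm 0) 1
    have k0 := congrFun (congrFun hvwm 0) 0
    generalize (w * dg g hg * w⁻¹).1 = v at *
    simp [Matrix.mul_apply, Fin.sum_univ_two, h01, h10, h] at k0 k1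
    have hα : v 0 0 = g := by
      have : (v 0 0 - g) * w.1 0 1 = 0 := by linear_combination k1
      exact sub_eq_zero.1 ((mul_eq_zero.1 this).resolve_right hw01)
    rw [hα] at k0
    have : (g - 1) * w.1 0 0 = 0 := by linear_combination k0
    exact (mul_eq_zero.1 this).resolve_left hg1'

lemma dg_mem (H : Subgroup (GL (Fin 2) (ZMod p))) (g : ZMod p) (hg : g ≠ 0) (hc : dg g hg ∈ H)
    (hgen : ∀ y : ZMod p, y ≠ 0 → ∃ k : ℕ, y = g ^ k) (μ : ZMod p) (hμ : μ ≠ 0) :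
    dg μ hμ ∈ H := by
  obtain ⟨k, hk⟩ := hgen μ hμ
  have : dg μ hμ = dg g hg ^ k := by
    apply Units.ext
    rw [Units.val_pow_eq_pow_val, dg_coe, dg_coe]
    subst hk
    clear hμ
    induction k with
    | zero => ext i j; fin_cases i <;> fin_cases j <;> simp
    | succ k ih =>
      rw [pow_succ (!![1, 0; 0, g] : Matrix (Fin 2) (Fin 2) (ZMod p)), ← ih, Matrix.mul_fin_two]
      apply m2ext <;> ring
  rw [this]
  exact H.pow_mem hc _

/-- elements of `H` without zero entry satisfy `ad + bc = 0` -/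
lemma ad_bc (H : Subgroup (GL (Fin 2) (ZMod p))) (hH : ¬ p ∣ Nat.card H)
    (g : ZMod p) (hg : g ≠ 0) (hg1 : g ≠ 1) (hc : dg g hg ∈ H)
    (hgen : ∀ y : ZMod p, y ≠ 0 → ∃ k : ℕ, y = g ^ k) (h : GL (Fin 2) (ZMod p)) (hh : h ∈ H)
    (ha : h.1 0 0 ≠ 0) (hb : h.1 0 1 ≠ 0) (hc' : h.1 1 0 ≠ 0) (hd : h.1 1 1 ≠ 0) :
    h.1 0 0 * h.1 1 1 + h.1 0 1 * h.1 1 0 = 0 := by
  have hdet : h.1.det ≠ 0 := ((Matrix.isUnit_iff_isUnit_det _).1 h.isUnit).ne_zero
  rw [Matrix.det_fin_two] at hdet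
  set μ := h.1 0 0 * h.1 1 1 / (h.1 0 1 * h.1 1 0) with hμdef
  have hμ : μ ≠ 0 := div_ne_zero (mul_ne_zero ha hd) (mul_ne_zero hb hc')
  have hD : dg μ hμ ∈ H := dg_mem H g hg hc hgen μ hμ
  have hw : h⁻¹ * dg μ hμ * h ∈ H := H.mul_mem (H.mul_mem (H.inv_mem hh) hD) hh
  have hhw : h * (h⁻¹ * dg μ hμ * h) = dg μ hμ * h := by group
  have hm : h.1 * (h⁻¹ * dg μ hμ * h).1 = !![1, 0; 0, μ] * h.1 := by
    have := congrArg Units.val hhw
    rw [Units.val_mul, Units.val_mul (dg μ hμ) h, dg_coe] at this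
    exact this
  have k00 := congrFun (congrFun hm 0) 0
  have k01 := congrFun (congrFun hm 0) 1
  have k10 := congrFun (congrFun hm 1) 0
  have k11 := congrFun (congrFun hm 1) 1
  have hmono := mono_of_zero H hH g hg hg1 hc _ hw
  generalize (h⁻¹ * dg μ hμ * h).1 = w at *
  simp [Matrix.mul_apply, Fin.sum_univ_two] at k00 k01 k10 k11
  have hμe : μ * (h.1 0 1 * h.1 1 0) = h.1 0 0 * h.1 1 1 := by
    rw [hμdef]; field_simp
  have hw00 : w 0 0 = 0 := by
    have : (h.1 0 0 * h.1 1 1 - h.1 0 1 * h.1 1 0) * w 0 0 = 0 := by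
      linear_combination h.1 1 1 * k00 - h.1 0 1 * k10 - hμe
    exact (mul_eq_zero.1 this).resolve_left hdet
  have hw11 : (h.1 0 0 * h.1 1 1 - h.1 0 1 * h.1 1 0) * w 1 1 =
      μ * (h.1 0 0 * h.1 1 1) - h.1 0 1 * h.1 1 0 := by
    linear_combination h.1 0 0 * k11 - h.1 1 0 * k01
  have hw01 : (h.1 0 0 * h.1 1 1 - h.1 0 1 * h.1 1 0) * w 0 1 =
      h.1 0 1 * h.1 1 1 * (1 - μ) := by
    linear_combination h.1 1 1 * k01 - h.1 0 1 * k11
  rcases hmono (Or.inl hw00) with ⟨h01, h10⟩ | ⟨_, h11⟩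
  · -- then `w 0 0 = w 0 1 = 0`, so `μ = 1`, contradiction with the determinant
    exfalso
    rw [h01, mul_zero] at hw01
    have : (1 - μ) = 0 :=
      (mul_eq_zero.1 hw01.symm).resolve_left (mul_ne_zero hb hd)
    have hμ1 : μ = 1 := by linear_combination -this
    apply hdet
    rw [hμ1] at hμe
    linear_combination -hμe
  · rw [h11, mul_zero] at hw11
    have e : (h.1 0 0 * h.1 1 1 + h.1 0 1 * h.1 1 0) *
        (h.1 0 0 * h.1 1 1 - h.1 0 1 * h.1 1 0) = 0 := by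
      linear_combination -(h.1 0 1 * h.1 1 0) * hw11 - (h.1 0 0 * h.1 1 1) * hμe
    exact (mul_eq_zero.1 e).resolve_right hdet

/-- all elements of `H` are monomial -/
lemma mono (hp7 : 7 ≤ p) (H : Subgroup (GL (Fin 2) (ZMod p))) (hH : ¬ p ∣ Nat.card H)
    (g : ZMod p) (hg : g ≠ 0) (hg1 : g ≠ 1) (hc : dg g hg ∈ H)
    (hgen : ∀ y : ZMod p, y ≠ 0 → ∃ k : ℕ, y = g ^ k) (h : GL (Fin 2) (ZMod p)) (hh : h ∈ H) :
    (h.1 0 1 = 0 ∧ h.1 1 0 = 0) ∨ (h.1 0 0 = 0 ∧ h.1 1 1 = 0) := by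
  obtain ⟨h2, h3, h5⟩ := ne_consts hp7
  by_cases hz : h.1 0 0 = 0 ∨ h.1 0 1 = 0 ∨ h.1 1 0 = 0 ∨ h.1 1 1 = 0
  · exact mono_of_zero H hH g hg hg1 hc h hh hz
  exfalso
  push Not at hz
  obtain ⟨ha, hb, hc', hd⟩ := hz
  have e0 := ad_bc H hH g hg hg1 hc hgen h hh ha hb hc' hd
  set μ := 2 * h.1 0 0 / h.1 1 1 with hμdef
  have hμ : μ ≠ 0 := div_ne_zero (mul_ne_zero h2 ha) hd
  have hμe : μ * h.1 1 1 = 2 * h.1 0 0 := by rw [hμdef]; field_simp
  have hD : dg μ hμ ∈ H := dg_mem H g hg hc hgen μ hμ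
  have hk : h * dg μ hμ * h ∈ H := H.mul_mem (H.mul_mem hh hD) hh
  have hkm : (h * dg μ hμ * h).1 = h.1 * !![1, 0; 0, μ] * h.1 := rfl
  have k00 : (h * dg μ hμ * h).1 0 0 = -(h.1 0 0) ^ 2 := by
    rw [hkm]
    simp [Matrix.mul_apply, Fin.sum_univ_two]
    linear_combination μ * e0 - h.1 0 0 * hμe
  have k01 : (h * dg μ hμ * h).1 0 1 = 3 * h.1 0 0 * h.1 0 1 := by
    rw [hkm]
    simp [Matrix.mul_apply, Fin.sum_univ_two]
    linear_combination h.1 0 1 * hμe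
  have k10 : (h * dg μ hμ * h).1 1 0 = 3 * h.1 0 0 * h.1 1 0 := by
    rw [hkm]
    simp [Matrix.mul_apply, Fin.sum_univ_two]
    linear_combination h.1 1 0 * hμe
  have k11 : (h * dg μ hμ * h).1 1 1 = h.1 0 0 * h.1 1 1 := by
    rw [hkm]
    simp [Matrix.mul_apply, Fin.sum_univ_two]
    linear_combination e0 + h.1 1 1 * hμe
  have e1 := ad_bc H hH g hg hg1 hc hgen _ hk (by rw [k00]; simpa using ha)
    (by rw [k01]; exact mul_ne_zero (mul_ne_zero h3 ha) hb)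
    (by rw [k10]; exact mul_ne_zero (mul_ne_zero h3 ha) hc')
    (by rw [k11]; exact mul_ne_zero ha hd)
  rw [k00, k01, k10, k11] at e1
  have : 2 * 5 * (h.1 0 0 ^ 2) * (h.1 0 0 * h.1 1 1) = 0 := by
    linear_combination -e1 + 9 * h.1 0 0 ^ 2 * e0
  have h10 : (2 * 5 * (h.1 0 0 ^ 2) * (h.1 0 0 * h.1 1 1) : ZMod p) ≠ 0 :=
    mul_ne_zero (mul_ne_zero (mul_ne_zero h2 h5) (pow_ne_zero _ ha)) (mul_ne_zero ha hd)
  exact h10 this

end Pool.Agent.Lib.MP_4e0942_nt
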