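import Pool.Agent.Lib.MP_4e0942_nt.Main

/-!
The final statement.
-/

namespace Pool.Agent.Lib.MP_4e0942_nt

open Matrix

variable {p : ℕ} [hp : Fact p.Prime]

/-- the representation as a homomorphism to `GL₂` -/
noncomputable def toG (ρ : GQ → M2 ℤ_[p]) (hone : ρ 1 = 1)
    (hmul : ∀ σ τ : GQ, ρ (σ * τ) = ρ σ * ρ τ) : GQ →* GL (Fin 2) ℤ_[p] :=
  MonoidHom.toHomUnits ⟨⟨ρ, hone⟩, hmul⟩

lemma toG_val (ρ : GQ → M2 ℤ_[p]) (hone : ρ 1 = 1)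
    (hmul : ∀ σ τ : GQ, ρ (σ * τ) = ρ σ * ρ τ) (σ : GQ) : (toG ρ hone hmul σ).1 = ρ σ := rfl

lemma bar_toG (ρ : GQ → M2 ℤ_[p]) (hone : ρ 1 = 1)
    (hmul : ∀ σ τ : GQ, ρ (σ * τ) = ρ σ * ρ τ) (σ : GQ) :
    (bar (toG ρ hone hmul) σ).1 = red (ρ σ) := rfl

lemma im_iff (ρ : GQ → M2 ℤ_[p]) (hone : ρ 1 = 1)
    (hmul : ∀ σ τ : GQ, ρ (σ * τ) = ρ σ * ρ τ) : ImG (toG ρ hone hmul) ↔ Im ρ := by
  constructor
  · rintro ⟨τ, hτ, hfree, hrank⟩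
    have e : Coker (toG ρ hone hmul) τ ≃ₗ[ℤ_[p]] ℤ_[p] :=
      LinearEquiv.ofFinrankEq _ _ (by rw [Module.finrank_self]; exact hrank)
    exact ⟨τ, hτ, ⟨e⟩⟩
  · rintro ⟨τ, hτ, ⟨e⟩⟩
    have e' : Coker (toG ρ hone hmul) τ ≃ₗ[ℤ_[p]] ℤ_[p] := e
    exact ⟨τ, hτ, Module.Free.of_equiv e'.symm, by rw [e'.finrank_eq, Module.finrank_self]⟩

theorem main (p : ℕ) [Fact p.Prime] (ρ : GQ → M2 ℤ_[p]) (hone : ρ 1 = 1)
    (hmul : ∀ σ τ : GQ, ρ (σ * τ) = ρ σ * ρ τ) (hρ : Continuous ρ)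
    (hdet : CyclotomicDet ρ) (hirr : ResIrreducible ρ) :
    (Im ρ ↔ ∀ s : M2 ℤ_[p], s.det = 1 → ∃ τ : GQ, FixesMu p τ ∧ ρ τ = s) ∧
    (p ≠ 2 → (Im ρ ↔ ∀ s : M2 ℤ_[p], s.det = 1 → ∃ τ : GQ, FixesMu p τ ∧
      ∃ Y : M2 ℤ_[p], ρ τ = s + (p : ℤ_[p]) ^ 2 • Y)) ∧
    (5 ≤ p → (Im ρ ↔ p ∣ Nat.card (Set.range fun σ : GQ => red (ρ σ)))) ∧
    (7 ≤ p → HasTorusElement ρ → (¬ Im ρ ↔ PermutesTwoLines ρ)) := by
  set r := toG ρ hone hmul with hr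
  have hρ' : Continuous fun τ : GQ => (r τ).1 := hρ
  have hdet' : CyclotomicDetG r := hdet
  have hirr' : ResIrreducibleG r := hirr
  have hA : Im ρ ↔ imS r hdet' = ⊤ := by
    rw [← im_iff ρ hone hmul]
    exact ⟨top_of_Im r hρ' hdet' hirr', Im_of_top r hdet'⟩
  have hcard : Nat.card (Set.range fun σ : GQ => red (ρ σ)) = Nat.card (bar r).range := by
    have e : (Set.range fun σ : GQ => red (ρ σ)) = Units.val '' ((bar r).range : Set _) := by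
      ext M
      constructor
      · rintro ⟨σ, rfl⟩
        exact ⟨bar r σ, ⟨σ, rfl⟩, rfl⟩
      · rintro ⟨_, ⟨σ, rfl⟩, rfl⟩
        exact ⟨σ, rfl⟩
    rw [e]
    exact Nat.card_image_of_injective Units.val_injective _
  have hC : 5 ≤ p → (Im ρ ↔ p ∣ Nat.card (bar r).range) := by
    intro hp5
    rw [hA]
    exact ⟨dvd_of_top r hdet', top_of_dvd hp5 r hρ' hdet' hirr'⟩
  refine ⟨?_, ?_, ?_, ?_⟩
  · rw [hA]
    constructor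
    · intro h s hs
      have : (⟨s, hs⟩ : SpecialLinearGroup (Fin 2) ℤ_[p]) ∈ imS r hdet' := by rw [h]; trivial
      exact this
    · intro h
      rw [eq_top_iff]
      intro s _
      exact h s.1 s.2
  · intro hp2
    rw [hA]
    constructor
    · intro h s hs
      have : (⟨s, hs⟩ : SpecialLinearGroup (Fin 2) ℤ_[p]) ∈ imS r hdet' := by rw [h]; trivial
      obtain ⟨τ, hτ, e⟩ := this
      exact ⟨τ, hτ, 0, by rw [← toG_val ρ hone hmul, ← hr, e]; simp⟩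
    · intro h
      have h2 : ∀ g : SpecialLinearGroup (Fin 2) ℤ_[p], ∃ s ∈ imS r hdet',
          ∃ Y : Matrix (Fin 2) (Fin 2) ℤ_[p], s.1 = g.1 + (p : ℤ_[p]) ^ 2 • Y := by
        intro g
        obtain ⟨τ, hτ, Y, e⟩ := h g.1 g.2
        exact ⟨⟨(r τ).1, (fixesMu_iff r hdet' τ).1 hτ⟩, ⟨τ, hτ, rfl⟩, Y, e⟩
      refine serre hp2 (closed_imS r hρ' hdet') (fun g => ?_) (fun x0 x1 z => Has.of_T2 h2)
      obtain ⟨s, hs, Y, e⟩ := h2 g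
      exact ⟨s, hs, (p : ℤ_[p]) • Y, by rw [e, smul_smul, pow_two]⟩
  · intro hp5
    rw [hcard]
    exact hC hp5
  · intro hp7 ht
    rw [hC (by omega)]
    exact ⟨permutes_of_not_dvd hp7 r ht, not_dvd_of_permutes (by omega) r⟩

end Pool.Agent.Lib.MP_4e0942_nt
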