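import Pool.Agent.Lib.MP_4e0942_nt.Closed

/-!
Lifting: a closed subgroup of `SL₂(ℤ_p)` with large image modulo `p` or `p²` is everything.
-/

namespace Pool.Agent.Lib.MP_4e0942_nt

open Matrix Polynomial

lemma poly_binom (p : ℕ) (hp : p.Prime) :
    ∃ a : ℤ[X], ((1 : ℤ[X]) + X) ^ p = 1 + (p : ℤ[X]) * X + (p : ℤ[X]) * (X ^ 2 * a) + X ^ p := by
  obtain ⟨q, rfl⟩ : ∃ q, p = q + 2 := ⟨p - 2, by have := hp.two_le; omega⟩
  have h := add_pow (X : ℤ[X]) 1 (q + 2)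
  rw [add_comm X 1] at h
  rw [h, Finset.sum_range_succ, Finset.sum_range_succ', Finset.sum_range_succ']
  have hd : ((q + 2 : ℕ) : ℤ[X]) * X ^ 2 ∣ ∑ k ∈ Finset.range q,
      (X : ℤ[X]) ^ (k + 1 + 1) * 1 ^ (q + 2 - (k + 1 + 1)) * ((q + 2).choose (k + 1 + 1) : ℤ[X]) := by
    apply Finset.dvd_sum
    intro k hk
    rw [Finset.mem_range] at hk
    have hc : (q + 2) ∣ (q + 2).choose (k + 1 + 1) :=
      hp.dvd_choose_self (by omega) (by omega)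
    obtain ⟨m, hm⟩ := hc
    rw [hm]
    refine ⟨(X : ℤ[X]) ^ k * (m : ℤ[X]), ?_⟩
    push_cast
    ring
  obtain ⟨a, ha⟩ := hd
  refine ⟨a, ?_⟩
  rw [ha]
  simp
  ring

lemma binom {A : Type*} [Ring A] (p : ℕ) (hp : p.Prime) (u : A) :
    ∃ b : A, (1 + u) ^ p = 1 + (p : A) * u + (p : A) * (u ^ 2 * b) + u ^ p := by
  obtain ⟨a, ha⟩ := poly_binom p hp
  refine ⟨aeval u a, ?_⟩
  have := congrArg (aeval u) ha
  simpa using this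

variable {p : ℕ} [hp : Fact p.Prime]

/-- `N_x` -/
noncomputable def Nm (x0 x1 : ℤ_[p]) : Matrix (Fin 2) (Fin 2) ℤ_[p] := !![-(x0 * x1), x0 ^ 2; -(x1 ^ 2), x0 * x1]

lemma Nm_sq (x0 x1 : ℤ_[p]) : Nm x0 x1 * Nm x0 x1 = 0 := by
  ext i j
  fin_cases i <;> fin_cases j <;> simp [Nm, Matrix.mul_apply, Fin.sum_univ_two] <;> ring

lemma T_eq (x0 x1 z : ℤ_[p]) : (T x0 x1 z).1 = 1 + z • Nm x0 x1 := by
  rw [T_coe]
  ext i j
  fin_cases i <;> fin_cases j <;> simp [Nm] <;> ring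

/-- `S` contains an element congruent to `1 + p^n X` modulo `p^(n+1)` -/
def Has (S : Subgroup (SpecialLinearGroup (Fin 2) ℤ_[p])) (n : ℕ)
    (X : Matrix (Fin 2) (Fin 2) ℤ_[p]) : Prop :=
  ∃ s ∈ S, ∃ Y : Matrix (Fin 2) (Fin 2) ℤ_[p],
    s.1 = 1 + (p : ℤ_[p]) ^ n • X + (p : ℤ_[p]) ^ (n + 1) • Y

variable {S : Subgroup (SpecialLinearGroup (Fin 2) ℤ_[p])}

lemma Has.add {n : ℕ} (hn : 1 ≤ n) {X X' : Matrix (Fin 2) (Fin 2) ℤ_[p]} (h : Has S n X)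
    (h' : Has S n X') : Has S n (X + X') := by
  obtain ⟨s, hs, Y, e⟩ := h
  obtain ⟨s', hs', Y', e'⟩ := h'
  obtain ⟨m, rfl⟩ : ∃ m, n = m + 1 := ⟨n - 1, by omega⟩
  refine ⟨s * s', S.mul_mem hs hs', Y + Y' +
    (p : ℤ_[p]) ^ m • ((X + (p : ℤ_[p]) • Y) * (X' + (p : ℤ_[p]) • Y')), ?_⟩
  rw [Matrix.SpecialLinearGroup.coe_mul, e, e']
  simp only [add_mul, mul_add, one_mul, mul_one, smul_add, Matrix.smul_mul, Matrix.mul_smul,
    smul_smul]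
  ring_nf
  module

lemma Has.cong {n : ℕ} {X : Matrix (Fin 2) (Fin 2) ℤ_[p]} (W : Matrix (Fin 2) (Fin 2) ℤ_[p])
    (h : Has S n X) : Has S n (X + (p : ℤ_[p]) • W) := by
  obtain ⟨s, hs, Y, e⟩ := h
  refine ⟨s, hs, Y - W, ?_⟩
  rw [e, pow_succ]
  module

lemma Has.step (hp2 : p ≠ 2) {n : ℕ} (hn : 1 ≤ n) {X : Matrix (Fin 2) (Fin 2) ℤ_[p]}
    (h : Has S n X) : Has S (n + 1) X := by
  obtain ⟨s, hs, Y, e⟩ := h
  obtain ⟨m, rfl⟩ : ∃ m, n = m + 1 := ⟨n - 1, by omega⟩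
  obtain ⟨q, hq⟩ : ∃ q, p = q + 3 := ⟨p - 3, by have := hp.1.two_le; omega⟩
  set Z : Matrix (Fin 2) (Fin 2) ℤ_[p] := X + (p : ℤ_[p]) • Y with hZ
  have e1 : s.1 = 1 + (p : ℤ_[p]) ^ (m + 1) • Z := by
    rw [e, hZ, pow_succ (p : ℤ_[p]) (m + 1)]; module
  obtain ⟨b, hb⟩ := binom p hp.1 ((p : ℤ_[p]) ^ (m + 1) • Z)
  have ecast : ((p : ℕ) : Matrix (Fin 2) (Fin 2) ℤ_[p]) = (p : ℤ_[p]) • 1 := by
    rw [← Matrix.diagonal_natCast]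
    ext i j
    simp [Matrix.diagonal, Matrix.one_apply]
  refine ⟨s ^ p, S.pow_mem hs _, Y + (p : ℤ_[p]) ^ m • (Z ^ 2 * b) +
    (p : ℤ_[p]) ^ (m * (q + 2) + q) • Z ^ p, ?_⟩
  rw [Matrix.SpecialLinearGroup.coe_pow, e1, hb, ecast, _root_.smul_pow, _root_.smul_pow]
  have e2 : ((p : ℤ_[p]) ^ (m + 1)) ^ p = (p : ℤ_[p]) ^ (m + 1 + 1 + 1) *
      (p : ℤ_[p]) ^ (m * (q + 2) + q) := by
    rw [← pow_mul, ← pow_add]
    congr 1
    rw [hq]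
    ring
  rw [e2]
  simp only [Matrix.smul_mul, one_mul, smul_smul, smul_add, hZ]
  ring_nf
  module

lemma Has.of_T2 {x0 x1 z : ℤ_[p]}
    (h : ∀ g : SpecialLinearGroup (Fin 2) ℤ_[p], ∃ s ∈ S, ∃ Y : Matrix (Fin 2) (Fin 2) ℤ_[p],
      s.1 = g.1 + (p : ℤ_[p]) ^ 2 • Y) : Has S 1 (z • Nm x0 x1) := by
  obtain ⟨s, hs, Y, e⟩ := h (T x0 x1 ((p : ℤ_[p]) * z))
  refine ⟨s, hs, Y, ?_⟩
  rw [e, T_eq, pow_one, smul_smul]

lemma Has.of_T1 (hp5 : 5 ≤ p) {x0 x1 z : ℤ_[p]}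
    (h : ∀ g : SpecialLinearGroup (Fin 2) ℤ_[p], ∃ s ∈ S, ∃ Y : Matrix (Fin 2) (Fin 2) ℤ_[p],
      s.1 = g.1 + (p : ℤ_[p]) • Y) : Has S 1 (z • Nm x0 x1) := by
  obtain ⟨s, hs, Y, e⟩ := h (T x0 x1 z)
  rw [T_eq] at e
  set N := z • Nm x0 x1 with hN
  have hNN : N * N = 0 := by rw [hN, Matrix.smul_mul, Matrix.mul_smul, Nm_sq]; simp
  have e1 : s.1 = 1 + (N + (p : ℤ_[p]) • Y) := by rw [e, add_assoc]
  obtain ⟨b, hb⟩ := binom p hp.1 (N + (p : ℤ_[p]) • Y)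
  have ecast : ((p : ℕ) : Matrix (Fin 2) (Fin 2) ℤ_[p]) = (p : ℤ_[p]) • 1 := by
    rw [← Matrix.diagonal_natCast]
    ext i j
    simp [Matrix.diagonal, Matrix.one_apply]
  set V := N * Y + Y * N + (p : ℤ_[p]) • (Y * Y) with hV
  have hsq : (N + (p : ℤ_[p]) • Y) ^ 2 = (p : ℤ_[p]) • V := by
    rw [pow_two, hV]
    simp only [add_mul, mul_add, hNN, Matrix.smul_mul, Matrix.mul_smul]
    module
  obtain ⟨q, hq⟩ : ∃ q, p = 2 + (2 + q) := ⟨p - 4, by omega⟩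
  have hpow : (N + (p : ℤ_[p]) • Y) ^ p = (p : ℤ_[p]) ^ 2 •
      (V * (V * (N + (p : ℤ_[p]) • Y) ^ q)) := by
    conv_lhs => rw [show (N + (p : ℤ_[p]) • Y) ^ p = (N + (p : ℤ_[p]) • Y) ^ (2 + (2 + q)) from
      congrArg _ hq]
    rw [pow_add, pow_add, hsq]
    simp only [Matrix.smul_mul, Matrix.mul_smul, smul_smul]
    congr 1
    ring
  refine ⟨s ^ p, S.pow_mem hs _, Y + V * b + V * (V * (N + (p : ℤ_[p]) • Y) ^ q), ?_⟩
  rw [Matrix.SpecialLinearGroup.coe_pow, e1, hb, ecast, hsq, hpow]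
  simp only [Matrix.smul_mul, one_mul, smul_smul, smul_add]
  ring_nf
  module

lemma Has.traceless (h : ∀ x0 x1 z : ℤ_[p], Has S 1 (z • Nm x0 x1))
    (X : Matrix (Fin 2) (Fin 2) ℤ_[p]) (hX : X 0 0 + X 1 1 = 0) : Has S 1 X := by
  have e : X = (-(X 0 0)) • Nm 1 1 * (-1 : Matrix (Fin 2) (Fin 2) ℤ_[p]) * (-1) +
      (X 0 1 + X 0 0) • Nm 1 0 + (-(X 1 0 - X 0 0)) • Nm 0 1 := by
    ext i j
    fin_cases i <;> fin_cases j <;> simp [Nm]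
    linear_combination hX
  have e' : X = (-(X 0 0)) • Nm 1 1 + (X 0 1 + X 0 0) • Nm 1 0 + (-(X 1 0 - X 0 0)) • Nm 0 1 := by
    conv_lhs => rw [e]
    simp
  rw [e']
  exact ((h 1 1 _).add le_rfl (h 1 0 _)).add le_rfl (h 0 1 _)

lemma serre (hp2 : p ≠ 2) (hS : ClosedSL S)
    (h1 : ∀ g : SpecialLinearGroup (Fin 2) ℤ_[p], ∃ s ∈ S, ∃ Y : Matrix (Fin 2) (Fin 2) ℤ_[p],
      s.1 = g.1 + (p : ℤ_[p]) • Y)
    (h2 : ∀ x0 x1 z : ℤ_[p], Has S 1 (z • Nm x0 x1)) : S = ⊤ := by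
  have hh : ∀ n : ℕ, ∀ X : Matrix (Fin 2) (Fin 2) ℤ_[p], X 0 0 + X 1 1 = 0 → Has S (n + 1) X := by
    intro n
    induction n with
    | zero => exact fun X hX => Has.traceless h2 X hX
    | succ n ih => exact fun X hX => (ih X hX).step hp2 (by omega)
  rw [eq_top_iff]
  intro g _
  apply mem_of_approx S hS
  intro n
  have key : ∀ n : ℕ, ∃ s ∈ S, ∃ Y : Matrix (Fin 2) (Fin 2) ℤ_[p],
      s.1 = g.1 + (p : ℤ_[p]) ^ (n + 1) • Y := by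
    intro n
    induction n with
    | zero => simpa using h1 g
    | succ n ih =>
      obtain ⟨s, hs, Y, e⟩ := ih
      -- X = - s⁻¹ Y
      set X : Matrix (Fin 2) (Fin 2) ℤ_[p] := -((s⁻¹).1 * Y) with hX
      have hinv : (s⁻¹).1 * s.1 = 1 := by
        rw [← Matrix.SpecialLinearGroup.coe_mul]; simp
      have hinv' : s.1 * (s⁻¹).1 = 1 := by
        rw [← Matrix.SpecialLinearGroup.coe_mul]; simp
      have e1 : (s⁻¹ * g).1 = 1 + (p : ℤ_[p]) ^ (n + 1) • X := by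
        rw [Matrix.SpecialLinearGroup.coe_mul]
        have : g.1 = s.1 - (p : ℤ_[p]) ^ (n + 1) • Y := by rw [e]; simp
        rw [this, mul_sub, hinv, hX, Matrix.mul_smul]
        module
      have hdet := (s⁻¹ * g).2
      rw [e1, Matrix.det_fin_two] at hdet
      simp [Matrix.add_apply, Matrix.smul_apply] at hdet
      have hp0 : (p : ℤ_[p]) ^ (n + 1) ≠ 0 := pow_ne_zero _ (by exact_mod_cast hp.1.ne_zero)
      have htr : X 0 0 + X 1 1 = -((p : ℤ_[p]) ^ (n + 1) * (X 0 0 * X 1 1 - X 0 1 * X 1 0)) := by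
        apply mul_left_cancel₀ hp0
        linear_combination hdet
      set D := (X 0 0 * X 1 1 - X 0 1 * X 1 0) with hD
      obtain ⟨t, ht, Y', e2⟩ := hh n (X + ((p : ℤ_[p]) ^ (n + 1) * D) • !![1, 0; 0, 0]) (by
        simp
        linear_combination htr)
      refine ⟨s * t, S.mul_mem hs ht, s.1 * ((p : ℤ_[p]) ^ n • D • !![1, 0; 0, 0] + Y'), ?_⟩
      have e3 : t.1 = (s⁻¹ * g).1 + (p : ℤ_[p]) ^ (n + 1 + 1) •
          ((p : ℤ_[p]) ^ n • D • !![1, 0; 0, 0] + Y') := by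
        rw [e2, e1]
        simp only [smul_add, smul_smul]
        ring_nf
        module
      rw [Matrix.SpecialLinearGroup.coe_mul, e3, mul_add, Matrix.SpecialLinearGroup.coe_mul,
        ← mul_assoc, hinv', one_mul, Matrix.mul_smul]
  rcases n with _ | n
  · obtain ⟨s, hs, Y, e⟩ := key 0
    exact ⟨s, hs, (p : ℤ_[p]) • Y, by rw [e]; simp⟩
  · exact key n

end Pool.Agent.Lib.MP_4e0942_nt
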