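import Pool.Agent.Lib.MP_4e0942_nt.Coker

/-!
The criteria for condition (Im).
-/

namespace Pool.Agent.Lib.MP_4e0942_nt

open Matrix

variable {p : ℕ} [hp : Fact p.Prime]

lemma det_ne_zero_of_not_smul (x0 x1 y0 y1 : ZMod p) (hx : x0 ≠ 0 ∨ x1 ≠ 0)
    (h : ∀ c : ZMod p, ![y0, y1] ≠ c • ![x0, x1]) : x0 * y1 - x1 * y0 ≠ 0 := by
  intro h0
  by_cases hx0 : x0 = 0
  · have hx1 : x1 ≠ 0 := by
      rcases hx with h | h
      · exact absurd hx0 h
      · exact h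
    have : y0 = 0 := by
      rw [hx0] at h0
      have : x1 * y0 = 0 := by linear_combination -h0
      exact (mul_eq_zero.1 this).resolve_left hx1
    apply h (y1 / x1)
    ext i
    fin_cases i
    · simp [this, hx0]
    · simp [hx1]
  · apply h (y0 / x0)
    ext i
    fin_cases i
    · simp; field_simp
    · simp; field_simp; linear_combination h0

lemma isUnit_of_toZMod (x : ℤ_[p]) (h : PadicInt.toZMod x ≠ 0) : IsUnit x := by
  by_contra hx
  apply h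
  have : x ∈ IsLocalRing.maximalIdeal ℤ_[p] := hx
  rw [← PadicInt.ker_toZMod] at this
  exact this

lemma toZMod_ne_zero_of_isUnit (x : ℤ_[p]) (h : IsUnit x) : PadicInt.toZMod x ≠ 0 :=
  (h.map (PadicInt.toZMod (p := p))).ne_zero

/-- lift from `SL₂(𝔽_p)` congruences: equality of reductions means congruence modulo `p` -/
lemma cong_of_toZMod (A B : Matrix (Fin 2) (Fin 2) ℤ_[p])
    (h : ∀ i j, PadicInt.toZMod (A i j) = PadicInt.toZMod (B i j)) :
    ∃ Y : Matrix (Fin 2) (Fin 2) ℤ_[p], A = B + (p : ℤ_[p]) • Y := by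
  have h1 : ∀ i j, ∃ y : ℤ_[p], A i j - B i j = (p : ℤ_[p]) * y := by
    intro i j
    have : A i j - B i j ∈ RingHom.ker (PadicInt.toZMod (p := p)) := by
      rw [RingHom.mem_ker, map_sub, h i j, sub_self]
    rw [PadicInt.ker_toZMod, PadicInt.maximalIdeal_eq_span_p, Ideal.mem_span_singleton] at this
    exact this
  choose Y hY using h1
  refine ⟨Matrix.of Y, ?_⟩
  ext i j
  simp only [Matrix.add_apply, Matrix.smul_apply, Matrix.of_apply, smul_eq_mul]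
  rw [← hY i j]; ring

lemma hconj (ρ : GQ →* GL (Fin 2) ℤ_[p]) (hdet : CyclotomicDetG ρ) (σ : GQ) :
    ∀ s ∈ imS ρ hdet, ∀ t : SpecialLinearGroup (Fin 2) ℤ_[p],
      (ρ σ).1 * s.1 = t.1 * (ρ σ).1 → t ∈ imS ρ hdet := by
  rintro s ⟨τ, hτ, e⟩ t ht
  have h1 : (ρ (σ * τ * σ⁻¹)).1 = t.1 := by
    have h2 : (ρ (σ * τ * σ⁻¹)).1 = (ρ σ).1 * (ρ τ).1 * (ρ σ⁻¹).1 := by
      rw [map_mul, map_mul]; rfl
    have h3 : (ρ σ).1 * (ρ σ⁻¹).1 = 1 := by
      rw [← Units.val_mul, ← map_mul]; simp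
    rw [h2, e, ht, mul_assoc, h3, mul_one]
  refine ⟨σ * τ * σ⁻¹, ?_, h1⟩
  rw [fixesMu_iff ρ hdet, h1]
  exact t.2

lemma top_of_Im (ρ : GQ →* GL (Fin 2) ℤ_[p]) (hρ : Continuous fun τ : GQ => (ρ τ).1) (hdet : CyclotomicDetG ρ)
    (hirr : ResIrreducibleG ρ) (h : ImG ρ) : imS ρ hdet = ⊤ := by
  obtain ⟨τ, hτ, hfree, hrank⟩ := h
  obtain ⟨x0, x1, c, hc, hx, e⟩ := T_of_coker (ρ τ).1 ((fixesMu_iff ρ hdet τ).1 hτ) hfree hrank
  have hx' : (PadicInt.toZMod x0 : ZMod p) ≠ 0 ∨ (PadicInt.toZMod x1 : ZMod p) ≠ 0 := by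
    rcases hx with h | h
    · exact Or.inl (toZMod_ne_zero_of_isUnit _ h)
    · exact Or.inr (toZMod_ne_zero_of_isUnit _ h)
  obtain ⟨σ, hσ⟩ := hirr ![PadicInt.toZMod x0, PadicInt.toZMod x1] (by
    intro h0
    have h1 := congrFun h0 0
    have h2 := congrFun h0 1
    simp only [Matrix.cons_val_zero, Matrix.cons_val_one, Pi.zero_apply] at h1 h2
    rcases hx' with hx | hx
    · exact hx h1
    · exact hx h2)
  have hgy : (bar ρ σ).1 *ᵥ ![PadicInt.toZMod x0, PadicInt.toZMod x1] =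
      ![PadicInt.toZMod ((ρ σ).1 0 0 * x0 + (ρ σ).1 0 1 * x1),
        PadicInt.toZMod ((ρ σ).1 1 0 * x0 + (ρ σ).1 1 1 * x1)] := by
    ext i
    fin_cases i <;>
      simp [Matrix.mulVec, dotProduct, Fin.sum_univ_two, bar_apply]
  rw [hgy] at hσ
  have hu := det_ne_zero_of_not_smul _ _ _ _ hx' hσ
  refine eq_top_of_T (imS ρ hdet) (closed_imS ρ hρ hdet) (ρ σ) (hconj ρ hdet σ) x0 x1 c hc
    ⟨τ, hτ, e⟩ (isUnit_of_toZMod _ ?_)
  rw [map_sub, map_mul, map_mul]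
  exact hu

lemma Im_of_top (ρ : GQ →* GL (Fin 2) ℤ_[p]) (hdet : CyclotomicDetG ρ)
    (h : imS ρ hdet = ⊤) : ImG ρ := by
  obtain ⟨τ, hτ, e⟩ : T (1 : ℤ_[p]) 0 1 ∈ imS ρ hdet := by rw [h]; trivial
  refine ⟨τ, hτ, ?_⟩
  unfold Coker
  rw [e]
  exact coker_of_T

/-- reduction of the image -/
noncomputable def barS (ρ : GQ →* GL (Fin 2) ℤ_[p]) (hdet : CyclotomicDetG ρ) :
    Subgroup (SpecialLinearGroup (Fin 2) (ZMod p)) :=
  (imS ρ hdet).map (Matrix.SpecialLinearGroup.map (PadicInt.toZMod (p := p)))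

lemma cong_of_barS (ρ : GQ →* GL (Fin 2) ℤ_[p]) (hdet : CyclotomicDetG ρ)
    (h : barS ρ hdet = ⊤) (g : SpecialLinearGroup (Fin 2) ℤ_[p]) :
    ∃ s ∈ imS ρ hdet, ∃ Y : Matrix (Fin 2) (Fin 2) ℤ_[p], s.1 = g.1 + (p : ℤ_[p]) • Y := by
  have : Matrix.SpecialLinearGroup.map (PadicInt.toZMod (p := p)) g ∈ barS ρ hdet := by
    rw [h]; trivial
  obtain ⟨s, hs, e⟩ := this
  refine ⟨s, hs, cong_of_toZMod _ _ fun i j => ?_⟩
  have := congrFun (congrFun (congrArg Subtype.val e) i) j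
  simpa using this

lemma top_of_dvd (hp5 : 5 ≤ p) (ρ : GQ →* GL (Fin 2) ℤ_[p]) (hρ : Continuous fun τ : GQ => (ρ τ).1)
    (hdet : CyclotomicDetG ρ) (hirr : ResIrreducibleG ρ)
    (hd : p ∣ Nat.card (bar ρ).range) : imS ρ hdet = ⊤ := by
  have h1 : slPart (bar ρ).range = ⊤ := by
    apply slPart_eq_top _ hd
    intro x hx
    obtain ⟨σ, hσ⟩ := hirr x hx
    exact ⟨bar ρ σ, ⟨σ, rfl⟩, hσ⟩
  have h2 : barS ρ hdet = ⊤ := by
    apply eq_top_of_commutators hp5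
    intro a b
    have ha : a ∈ slPart (bar ρ).range := by rw [h1]; trivial
    have hb : b ∈ slPart (bar ρ).range := by rw [h1]; trivial
    rw [mem_slPart] at ha hb
    obtain ⟨_, ⟨σ, rfl⟩, ea⟩ := ha
    obtain ⟨_, ⟨τ, rfl⟩, eb⟩ := hb
    have hfix : (ρ (σ * τ * σ⁻¹ * τ⁻¹)).1.det = 1 := by
      have e1 : (ρ (σ * τ * σ⁻¹ * τ⁻¹)).1 = (ρ σ).1 * (ρ τ).1 * (ρ σ⁻¹).1 * (ρ τ⁻¹).1 := by
        rw [map_mul, map_mul, map_mul]; rfl
      have e2 : (ρ σ).1.det * (ρ σ⁻¹).1.det = 1 := by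
        rw [← Matrix.det_mul, ← Units.val_mul, ← map_mul]; simp
      have e3 : (ρ τ).1.det * (ρ τ⁻¹).1.det = 1 := by
        rw [← Matrix.det_mul, ← Units.val_mul, ← map_mul]; simp
      rw [e1, Matrix.det_mul, Matrix.det_mul, Matrix.det_mul]
      linear_combination (ρ τ).1.det * (ρ τ⁻¹).1.det * e2 + e3
    refine ⟨⟨(ρ (σ * τ * σ⁻¹ * τ⁻¹)).1, hfix⟩, ⟨_, (fixesMu_iff ρ hdet _).2 hfix, rfl⟩, ?_⟩
    have ea' : Matrix.SpecialLinearGroup.toGL a = bar ρ σ := Units.ext ea.symm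
    have eb' : Matrix.SpecialLinearGroup.toGL b = bar ρ τ := Units.ext eb.symm
    have e4 : Matrix.SpecialLinearGroup.toGL (a * b * a⁻¹ * b⁻¹) =
        bar ρ (σ * τ * σ⁻¹ * τ⁻¹) := by
      rw [map_mul, map_mul, map_mul, map_inv, map_inv, ea', eb', map_mul, map_mul, map_mul,
        map_inv, map_inv]
    apply Subtype.ext
    have e5 := congrArg Units.val e4
    ext i j
    have e6 := congrFun (congrFun e5 i) j
    rw [bar_apply] at e6
    exact e6.symm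
  exact serre (by omega) (closed_imS ρ hρ hdet) (cong_of_barS ρ hdet h2)
    (fun x0 x1 z => Has.of_T1 hp5 (cong_of_barS ρ hdet h2))

lemma dvd_of_top (ρ : GQ →* GL (Fin 2) ℤ_[p]) (hdet : CyclotomicDetG ρ)
    (h : imS ρ hdet = ⊤) : p ∣ Nat.card (bar ρ).range := by
  obtain ⟨τ, hτ, e⟩ : T (1 : ℤ_[p]) 0 1 ∈ imS ρ hdet := by rw [h]; trivial
  have e1 : (bar ρ τ).1 = (T (1 : ZMod p) 0 1).1 := by
    ext i j
    rw [bar_apply, e, T_coe, T_coe]
    fin_cases i <;> fin_cases j <;> simp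
  apply dvd_card_of_T _ 1 0 1 (bar ρ τ) (MonoidHom.mem_range.2 ⟨τ, rfl⟩) e1
  intro h1
  have := T_ne_one (1 : ZMod p) 0 1 (Or.inl one_ne_zero) one_ne_zero
  apply this
  rw [← e1, h1]; rfl

/-- The image of `ρ` modulo `p` permutes two different lines of `𝔽_p²` (it lies in the normaliser
of a split Cartan subgroup). -/
def PermutesTwoLinesG (ρ : GQ →* GL (Fin 2) ℤ_[p]) : Prop :=
  ∃ x y : Fin 2 → ZMod p, x 0 * y 1 - x 1 * y 0 ≠ 0 ∧ ∀ σ : GQ,
    ((∃ a : ZMod p, (bar ρ σ).1 *ᵥ x = a • x) ∧ ∃ b : ZMod p, (bar ρ σ).1 *ᵥ y = b • y) ∨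
    ((∃ a : ZMod p, (bar ρ σ).1 *ᵥ x = a • y) ∧ ∃ b : ZMod p, (bar ρ σ).1 *ᵥ y = b • x)

lemma eq_zero_of_mulVec (M : Matrix (Fin 2) (Fin 2) (ZMod p)) (x y : Fin 2 → ZMod p)
    (hxy : x 0 * y 1 - x 1 * y 0 ≠ 0) (N : Matrix (Fin 2) (Fin 2) (ZMod p))
    (hx : M *ᵥ x = N *ᵥ x) (hy : M *ᵥ y = N *ᵥ y) : M = N := by
  have x0 := congrFun hx 0
  have x1 := congrFun hx 1
  have y0 := congrFun hy 0
  have y1 := congrFun hy 1
  simp only [Matrix.mulVec, dotProduct, Fin.sum_univ_two] at x0 x1 y0 y1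
  ext i j
  fin_cases i <;> fin_cases j
  · have : (x 0 * y 1 - x 1 * y 0) * (M 0 0 - N 0 0) = 0 := by
      linear_combination y 1 * x0 - x 1 * y0
    exact sub_eq_zero.1 ((mul_eq_zero.1 this).resolve_left hxy)
  · have : (x 0 * y 1 - x 1 * y 0) * (M 0 1 - N 0 1) = 0 := by
      linear_combination x 0 * y0 - y 0 * x0
    exact sub_eq_zero.1 ((mul_eq_zero.1 this).resolve_left hxy)
  · have : (x 0 * y 1 - x 1 * y 0) * (M 1 0 - N 1 0) = 0 := by
      linear_combination y 1 * x1 - x 1 * y1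
    exact sub_eq_zero.1 ((mul_eq_zero.1 this).resolve_left hxy)
  · have : (x 0 * y 1 - x 1 * y 0) * (M 1 1 - N 1 1) = 0 := by
      linear_combination x 0 * y1 - y 0 * x1
    exact sub_eq_zero.1 ((mul_eq_zero.1 this).resolve_left hxy)

lemma pow_diag (M : Matrix (Fin 2) (Fin 2) (ZMod p)) (x y : Fin 2 → ZMod p)
    (hxy : x 0 * y 1 - x 1 * y 0 ≠ 0) (hM : IsUnit M) (a b : ZMod p)
    (hx : M *ᵥ x = a • x) (hy : M *ᵥ y = b • y) : M ^ (p - 1) = 1 := by
  have hinj := Matrix.mulVec_injective_of_isUnit hM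
  have hx0 : x ≠ 0 := by rintro rfl; simp at hxy
  have hy0 : y ≠ 0 := by rintro rfl; simp at hxy
  have ha : a ≠ 0 := by
    rintro rfl
    rw [zero_smul] at hx
    exact hx0 (hinj (by simp [hx]))
  have hb : b ≠ 0 := by
    rintro rfl
    rw [zero_smul] at hy
    exact hy0 (hinj (by simp [hy]))
  have hpow : ∀ (z : Fin 2 → ZMod p) (c : ZMod p), M *ᵥ z = c • z → ∀ k : ℕ,
      (M ^ k) *ᵥ z = c ^ k • z := by
    intro z c hz k
    induction k with
    | zero => simp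
    | succ k ih =>
      rw [pow_succ, ← Matrix.mulVec_mulVec, hz, Matrix.mulVec_smul, ih, smul_smul, pow_succ,
        mul_comm]
  apply eq_zero_of_mulVec _ x y hxy
  · rw [hpow x a hx, ZMod.pow_card_sub_one_eq_one ha]; simp
  · rw [hpow y b hy, ZMod.pow_card_sub_one_eq_one hb]; simp

lemma not_dvd_of_permutes (hp2 : p ≠ 2) (ρ : GQ →* GL (Fin 2) ℤ_[p]) (h : PermutesTwoLinesG ρ) :
    ¬ p ∣ Nat.card (bar ρ).range := by
  intro hd
  obtain ⟨x, y, hxy, hσ⟩ := h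
  obtain ⟨⟨g, hg⟩, ho⟩ := exists_prime_orderOf_dvd_card' p hd
  obtain ⟨σ, rfl⟩ := hg
  have h2 : ((bar ρ σ).1 ^ 2) ^ (p - 1) = 1 := by
    have hM : IsUnit ((bar ρ σ).1 ^ 2) := (bar ρ σ).isUnit.pow 2
    rcases hσ σ with ⟨⟨a, ha⟩, ⟨b, hb⟩⟩ | ⟨⟨a, ha⟩, ⟨b, hb⟩⟩
    · apply pow_diag _ x y hxy hM (a * a) (b * b)
      · rw [pow_two, ← Matrix.mulVec_mulVec, ha, Matrix.mulVec_smul, ha, smul_smul]
      · rw [pow_two, ← Matrix.mulVec_mulVec, hb, Matrix.mulVec_smul, hb, smul_smul]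
    · apply pow_diag _ x y hxy hM (a * b) (b * a)
      · rw [pow_two, ← Matrix.mulVec_mulVec, ha, Matrix.mulVec_smul, hb, smul_smul]
      · rw [pow_two, ← Matrix.mulVec_mulVec, hb, Matrix.mulVec_smul, ha, smul_smul]
  have h3 : (bar ρ σ) ^ (2 * (p - 1)) = 1 := by
    apply Units.ext
    rw [Units.val_pow_eq_pow_val, pow_mul, h2, Units.val_one]
  have h4 : orderOf (bar ρ σ) ∣ 2 * (p - 1) := orderOf_dvd_of_pow_eq_one h3
  have h5 : orderOf (bar ρ σ) = p := (Subgroup.orderOf_mk _ _).symm.trans ho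
  rw [h5, hp.1.dvd_mul] at h4
  have hp2' := hp.1.two_le
  rcases h4 with h4 | h4
  · have := Nat.le_of_dvd (by norm_num) h4
    omega
  · have := Nat.le_of_dvd (by omega) h4
    omega

/-- an element of the image with eigenvalues `1` and a generator of `𝔽_p^×` -/
def HasTorusElementG (ρ : GQ →* GL (Fin 2) ℤ_[p]) : Prop :=
  ∃ (σ : GQ) (g : ZMod p), (∀ y : ZMod p, y ≠ 0 → ∃ k : ℕ, y = g ^ k) ∧
    (bar ρ σ).1.trace = 1 + g ∧ (bar ρ σ).1.det = g

lemma permutes_of_not_dvd (hp7 : 7 ≤ p) (ρ : GQ →* GL (Fin 2) ℤ_[p]) (ht : HasTorusElementG ρ)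
    (hd : ¬ p ∣ Nat.card (bar ρ).range) : PermutesTwoLinesG ρ := by
  obtain ⟨h2, h3, h5⟩ := ne_consts hp7
  obtain ⟨σ, g, hgen, htr, hdet⟩ := ht
  have hg : g ≠ 0 := by
    rw [← hdet]
    exact ((Matrix.isUnit_iff_isUnit_det _).1 (bar ρ σ).isUnit).ne_zero
  have hg1 : g ≠ 1 := by
    rintro rfl
    obtain ⟨k, hk⟩ := hgen 2 h2
    rw [one_pow] at hk
    have : (1 : ZMod p) = 0 := by linear_combination hk
    exact one_ne_zero this
  -- eigenvectors
  have hev : ∀ c : ZMod p, c ^ 2 - (1 + g) * c + g = 0 → ∃ v : Fin 2 → ZMod p, v ≠ 0 ∧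
      (bar ρ σ).1 *ᵥ v = c • v := by
    intro c hc
    have hd0 : ((bar ρ σ).1 - c • 1).det = 0 := by
      rw [Matrix.trace_fin_two] at htr
      rw [Matrix.det_fin_two] at hdet
      rw [Matrix.det_fin_two]
      simp [Matrix.sub_apply, Matrix.smul_apply]
      linear_combination hdet - c * htr + hc
    obtain ⟨v, hv, hv0⟩ := Matrix.exists_mulVec_eq_zero_iff.2 hd0
    refine ⟨v, hv, ?_⟩
    rw [Matrix.sub_mulVec, Matrix.smul_mulVec, Matrix.one_mulVec, sub_eq_zero] at hv0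
    exact hv0
  obtain ⟨x, hx, hxe⟩ := hev 1 (by ring)
  obtain ⟨y, hy, hye⟩ := hev g (by ring)
  have hxy : x 0 * y 1 - x 1 * y 0 ≠ 0 := by
    apply det_ne_zero_of_not_smul
    · by_contra hcon
      push Not at hcon
      apply hx
      ext i
      fin_cases i
      · exact hcon.1
      · exact hcon.2
    · intro c hc
      have hyc : y = c • x := by
        ext i
        have := congrFun hc i
        fin_cases i <;> simpa using this
      have h1 : (bar ρ σ).1 *ᵥ y = y := by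
        rw [hyc, Matrix.mulVec_smul, hxe, one_smul]
      rw [hye] at h1
      have h2 : (g - 1) • y = 0 := by rw [sub_smul, h1, one_smul, sub_self]
      rcases smul_eq_zero.1 h2 with h | h
      · exact hg1 (sub_eq_zero.1 h)
      · exact hy h
  let P : GL (Fin 2) (ZMod p) := Matrix.GeneralLinearGroup.mkOfDetNeZero !![x 0, y 0; x 1, y 1] (by
    rw [Matrix.det_fin_two_of]
    intro h0
    apply hxy
    linear_combination h0)
  have hP : P.1 = !![x 0, y 0; x 1, y 1] := rfl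
  set H := ((bar ρ).range).map (MulAut.conj P⁻¹).toMonoidHom with hH
  have hcard : ¬ p ∣ Nat.card H := by
    rw [hH, Subgroup.card_map_of_injective (MulAut.conj P⁻¹).injective]
    exact hd
  have hxe' := hxe
  have hye' := hye
  have a0 := congrFun hxe' 0
  have a1 := congrFun hxe' 1
  have b0 := congrFun hye' 0
  have b1 := congrFun hye' 1
  simp [Matrix.mulVec, dotProduct, Fin.sum_univ_two] at a0 a1 b0 b1
  have hc : dg g hg ∈ H := by
    refine ⟨bar ρ σ, ⟨σ, rfl⟩, ?_⟩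
    have e1 : bar ρ σ * P = P * dg g hg := by
      apply Units.ext
      rw [Units.val_mul, Units.val_mul, hP, dg_coe]
      ext i j
      fin_cases i <;> fin_cases j <;> simp [Matrix.mul_apply, Fin.sum_univ_two]
      · linear_combination a0
      · linear_combination b0
      · linear_combination a1
      · linear_combination b1
    have e2 : (MulAut.conj P⁻¹).toMonoidHom (bar ρ σ) = P⁻¹ * (bar ρ σ * P) := by
      simp [MulAut.conj_apply, mul_assoc]
    rw [e2, e1]; simp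
  refine ⟨x, y, hxy, fun τ => ?_⟩
  have hτ : P⁻¹ * bar ρ τ * P ∈ H := by
    refine ⟨bar ρ τ, ⟨τ, rfl⟩, ?_⟩
    simp [MulAut.conj_apply]
  have hm := mono hp7 H hcard g hg hg1 hc hgen _ hτ
  have e3 : P * (P⁻¹ * bar ρ τ * P) = bar ρ τ * P := by simp [mul_assoc]
  have e4 := congrArg Units.val e3
  rw [Units.val_mul, Units.val_mul (bar ρ τ) P, hP] at e4
  generalize (P⁻¹ * bar ρ τ * P).1 = w at *
  have c00 := congrFun (congrFun e4 0) 0
  have c01 := congrFun (congrFun e4 0) 1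
  have c10 := congrFun (congrFun e4 1) 0
  have c11 := congrFun (congrFun e4 1) 1
  simp [Matrix.mul_apply, Fin.sum_univ_two] at c00 c01 c10 c11
  rcases hm with ⟨w01, w10⟩ | ⟨w00, w11⟩
  · left
    rw [w10] at c00 c10
    rw [w01] at c01 c11
    constructor
    · refine ⟨w 0 0, ?_⟩
      ext i
      fin_cases i
      · simp [Matrix.mulVec, dotProduct, Fin.sum_univ_two]; linear_combination -c00
      · simp [Matrix.mulVec, dotProduct, Fin.sum_univ_two]; linear_combination -c10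
    · refine ⟨w 1 1, ?_⟩
      ext i
      fin_cases i
      · simp [Matrix.mulVec, dotProduct, Fin.sum_univ_two]; linear_combination -c01
      · simp [Matrix.mulVec, dotProduct, Fin.sum_univ_two]; linear_combination -c11
  · right
    rw [w00] at c00 c10
    rw [w11] at c01 c11
    constructor
    · refine ⟨w 1 0, ?_⟩
      ext i
      fin_cases i
      · simp [Matrix.mulVec, dotProduct, Fin.sum_univ_two]; linear_combination -c00
      · simp [Matrix.mulVec, dotProduct, Fin.sum_univ_two]; linear_combination -c10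
    · refine ⟨w 0 1, ?_⟩
      ext i
      fin_cases i
      · simp [Matrix.mulVec, dotProduct, Fin.sum_univ_two]; linear_combination -c01
      · simp [Matrix.mulVec, dotProduct, Fin.sum_univ_two]; linear_combination -c11

end Pool.Agent.Lib.MP_4e0942_nt
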