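import Pool.Agent.Lib.MP_4e0942_nt.Defs
import Pool.Agent.Lib.MP_4e0942_nt.Lift
import Pool.Agent.Lib.MP_4e0942_nt.Dih

/-!
Two-dimensional `p`-adic representations of `G_ℚ` with cyclotomic determinant: condition (Im).
-/

namespace Pool.Agent.Lib.MP_4e0942_nt

open Matrix

theorem isAlgQ : Algebra.IsAlgebraic ℚ (AlgebraicClosure ℚ) := by
  have h : @Algebra.IsAlgebraic ℚ (AlgebraicClosure ℚ) _ _ (AlgebraicClosure.instAlgebra ℚ) :=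
    inferInstance
  convert h
  exact Subsingleton.elim _ _

instance isGaloisQ : IsGalois ℚ (AlgebraicClosure ℚ) where
  to_isSeparable := by
    have := isAlgQ
    exact Algebra.IsAlgebraic.isSeparable_of_perfectField
  to_normal := by
    have h : @Normal ℚ (AlgebraicClosure ℚ) _ _ (AlgebraicClosure.instAlgebra ℚ) := inferInstance
    convert h
    exact Subsingleton.elim _ _

variable {p : ℕ} [hp : Fact p.Prime]

/-- `det ρ` is the `p`-adic cyclotomic character: `σ ζ = ζ ^ det ρ(σ)` for `ζ ∈ μ_{p^n}`. -/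
def CyclotomicDetG (ρ : GQ →* GL (Fin 2) ℤ_[p]) : Prop :=
  ∀ (σ : GQ) (n : ℕ) (ζ : AlgebraicClosure ℚ), ζ ^ p ^ n = 1 →
    σ ζ = ζ ^ (PadicInt.toZModPow n (ρ σ).1.det).val

/-- The cokernel `T / (ρ(τ) - 1) T`, `T = ℤ_p²`. -/
abbrev Coker (ρ : GQ →* GL (Fin 2) ℤ_[p]) (τ : GQ) : Type :=
  (Fin 2 → ℤ_[p]) ⧸ LinearMap.range (Matrix.mulVecLin ((ρ τ).1 - 1))

/-- Condition (Im). -/
def ImG (ρ : GQ →* GL (Fin 2) ℤ_[p]) : Prop :=
  ∃ τ : GQ, FixesMu p τ ∧ Module.Free ℤ_[p] (Coker ρ τ) ∧ Module.finrank ℤ_[p] (Coker ρ τ) = 1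

/-- The reduction of `ρ` modulo `p`. -/
noncomputable def bar (ρ : GQ →* GL (Fin 2) ℤ_[p]) : GQ →* GL (Fin 2) (ZMod p) :=
  (Matrix.GeneralLinearGroup.map (PadicInt.toZMod (p := p))).comp ρ

lemma bar_apply (ρ : GQ →* GL (Fin 2) ℤ_[p]) (σ : GQ) (i j : Fin 2) :
    (bar ρ σ).1 i j = PadicInt.toZMod ((ρ σ).1 i j) := rfl

/-- `ρ` is irreducible modulo `p`. -/
def ResIrreducibleG (ρ : GQ →* GL (Fin 2) ℤ_[p]) : Prop :=
  ∀ x : Fin 2 → ZMod p, x ≠ 0 → ∃ σ : GQ, ∀ c : ZMod p, (bar ρ σ).1 *ᵥ x ≠ c • x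

lemma fixesMu_iff (ρ : GQ →* GL (Fin 2) ℤ_[p]) (hdet : CyclotomicDetG ρ) (τ : GQ) :
    FixesMu p τ ↔ (ρ τ).1.det = 1 := by
  constructor
  · intro h
    rw [← PadicInt.ext_of_toZModPow]
    intro n
    rw [map_one]
    rcases Nat.eq_zero_or_pos n with rfl | hn
    · exact Subsingleton.elim (α := ZMod 1) _ _
    have hpn : p ^ n ≠ 0 := pow_ne_zero _ hp.1.ne_zero
    have h1n : 1 < p ^ n := Nat.one_lt_pow hn.ne' hp.1.one_lt
    have : NeZero (p ^ n) := ⟨hpn⟩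
    obtain ⟨ζ, hζ⟩ := HasEnoughRootsOfUnity.exists_primitiveRoot (AlgebraicClosure ℚ) (p ^ n)
    have h1 := hdet τ n ζ hζ.pow_eq_one
    rw [h n ζ hζ.pow_eq_one] at h1
    have h2 : ζ ^ 1 = ζ ^ (PadicInt.toZModPow n (ρ τ).1.det).val := by rw [pow_one]; exact h1
    have h3 := hζ.pow_inj h1n (ZMod.val_lt _) h2
    have h4 := ZMod.natCast_zmod_val (PadicInt.toZModPow n (ρ τ).1.det)
    rw [← h3] at h4
    simpa using h4.symm
  · intro h n ζ hζ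
    rw [hdet τ n ζ hζ, h, map_one]
    rcases Nat.eq_zero_or_pos n with rfl | hn
    · simp at hζ
      simp [hζ]
    · have h1 : 1 < p ^ n := Nat.one_lt_pow hn.ne' hp.1.one_lt
      have : Fact (1 < p ^ n) := ⟨h1⟩
      rw [ZMod.val_one, pow_one]

/-- The subgroup `ρ(Gal(ℚ̄/ℚ(μ_{p^∞})))` of `SL₂(ℤ_p)`. -/
def imS (ρ : GQ →* GL (Fin 2) ℤ_[p]) (hdet : CyclotomicDetG ρ) :
    Subgroup (SpecialLinearGroup (Fin 2) ℤ_[p]) where
  carrier := {s | ∃ τ : GQ, FixesMu p τ ∧ (ρ τ).1 = s.1}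
  mul_mem' := by
    rintro a b ⟨τ, hτ, e⟩ ⟨τ', hτ', e'⟩
    refine ⟨τ * τ', fun n ζ hζ => ?_, ?_⟩
    · rw [AlgEquiv.mul_apply, hτ' n ζ hζ, hτ n ζ hζ]
    · rw [map_mul, Units.val_mul, e, e', Matrix.SpecialLinearGroup.coe_mul]
  one_mem' := ⟨1, fun n ζ _ => rfl, by simp⟩
  inv_mem' := by
    rintro a ⟨τ, hτ, e⟩
    refine ⟨τ⁻¹, ?_, ?_⟩
    · rw [fixesMu_iff ρ hdet] at hτ ⊢
      have h1 : (ρ τ⁻¹).1 * (ρ τ).1 = 1 := by
        rw [← Units.val_mul, ← map_mul]; simp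
      have := congrArg Matrix.det h1
      rw [Matrix.det_mul, hτ] at this
      simpa using this
    · have h1 : (ρ τ⁻¹).1 * a.1 = 1 := by
        rw [← e, ← Units.val_mul, ← map_mul]; simp
      have h2 : a.1 * (a⁻¹).1 = 1 := by
        rw [← Matrix.SpecialLinearGroup.coe_mul]; simp
      calc (ρ τ⁻¹).1 = (ρ τ⁻¹).1 * (a.1 * (a⁻¹).1) := by rw [h2, mul_one]
        _ = (a⁻¹).1 := by rw [← mul_assoc, h1, one_mul]

lemma mem_imS (ρ : GQ →* GL (Fin 2) ℤ_[p]) (hdet : CyclotomicDetG ρ)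
    (s : SpecialLinearGroup (Fin 2) ℤ_[p]) :
    s ∈ imS ρ hdet ↔ ∃ τ : GQ, FixesMu p τ ∧ (ρ τ).1 = s.1 := Iff.rfl

lemma closed_imS (ρ : GQ →* GL (Fin 2) ℤ_[p]) (hρ : Continuous fun τ : GQ => (ρ τ).1) (hdet : CyclotomicDetG ρ) :
    ClosedSL (imS ρ hdet) := by
  have hc : Continuous fun τ : GQ => (ρ τ).1 := hρ
  have h1 : IsClosed {τ : GQ | (ρ τ).1.det = 1} :=
    isClosed_eq (Continuous.matrix_det hc) continuous_const
  have h2 : IsCompact ((fun τ : GQ => (ρ τ).1) '' {τ : GQ | (ρ τ).1.det = 1}) :=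
    h1.isCompact.image hc
  have h3 : {M : Matrix (Fin 2) (Fin 2) ℤ_[p] | ∃ s ∈ imS ρ hdet, s.1 = M} =
      (fun τ : GQ => (ρ τ).1) '' {τ : GQ | (ρ τ).1.det = 1} := by
    ext M
    constructor
    · rintro ⟨s, ⟨τ, hτ, e⟩, rfl⟩
      exact ⟨τ, (fixesMu_iff ρ hdet τ).1 hτ, e⟩
    · rintro ⟨τ, hτ, rfl⟩
      exact ⟨⟨(ρ τ).1, hτ⟩, ⟨τ, (fixesMu_iff ρ hdet τ).2 hτ, rfl⟩, rfl⟩
  unfold ClosedSL
  rw [h3]
  exact h2.isClosed

end Pool.Agent.Lib.MP_4e0942_nt
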