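import Pool.Agent.Lib.MP_4e0942_nt.Unip

/-!
Subgroups of `GL₂(𝔽_p)`.
-/

namespace Pool.Agent.Lib.MP_4e0942_nt

open Matrix

variable {p : ℕ} [hp : Fact p.Prime]

/-- a nilpotent `2 × 2` matrix `h - 1` gives `h = T x c` -/
lemma T_of_trace_det (h : Matrix (Fin 2) (Fin 2) (ZMod p)) (htr : (h - 1).trace = 0)
    (hdet : (h - 1).det = 0) (hne : h ≠ 1) :
    ∃ x0 x1 c : ZMod p, (x0 ≠ 0 ∨ x1 ≠ 0) ∧ c ≠ 0 ∧ h = (T x0 x1 c).1 := by
  rw [Matrix.trace_fin_two] at htr
  rw [Matrix.det_fin_two] at hdet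
  simp [Matrix.sub_apply] at htr hdet
  by_cases hb : h 0 1 = 0
  · have ha : h 0 0 - 1 = 0 := by
      have : (h 0 0 - 1) ^ 2 = 0 := by
        linear_combination (h 0 0 - 1) * htr - hdet - hb * h 1 0
      exact pow_eq_zero_iff (two_ne_zero) |>.1 this
    have hd : h 1 1 - 1 = 0 := by linear_combination htr - ha
    have hc : h 1 0 ≠ 0 := by
      intro hc
      apply hne
      ext i j
      fin_cases i <;> fin_cases j
      · simpa using sub_eq_zero.1 ha
      · simpa using hb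
      · simpa using hc
      · simpa using sub_eq_zero.1 hd
    refine ⟨0, 1, -h 1 0, Or.inr one_ne_zero, neg_ne_zero.2 hc, ?_⟩
    rw [T_coe]
    ext i j
    fin_cases i <;> fin_cases j <;> simp
    · exact sub_eq_zero.1 ha
    · exact hb
    · exact sub_eq_zero.1 hd
  · refine ⟨h 0 1, -(h 0 0 - 1), (h 0 1)⁻¹, Or.inl hb, inv_ne_zero hb, ?_⟩
    rw [T_coe]
    have hbb : h 0 1 * (h 0 1)⁻¹ = 1 := mul_inv_cancel₀ hb
    ext i j
    fin_cases i <;> fin_cases j <;> simp
    · field_simp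
      ring
    · field_simp
    · field_simp
      linear_combination (h 0 0 - 1) * htr - hdet
    · field_simp
      linear_combination htr

lemma exists_T_of_dvd (H : Subgroup (GL (Fin 2) (ZMod p))) (hd : p ∣ Nat.card H) :
    ∃ x0 x1 c : ZMod p, (x0 ≠ 0 ∨ x1 ≠ 0) ∧ c ≠ 0 ∧ ∃ h ∈ H, h.1 = (T x0 x1 c).1 := by
  obtain ⟨⟨h, hh⟩, ho⟩ := exists_prime_orderOf_dvd_card' p hd
  have hpow : h ^ p = 1 := by
    have := pow_orderOf_eq_one (⟨h, hh⟩ : H)
    rw [ho] at this
    simpa using congrArg Subtype.val this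
  have hne : h ≠ 1 := by
    rintro rfl
    have : orderOf (⟨1, hh⟩ : H) = 1 := by
      rw [orderOf_eq_one_iff]; rfl
    rw [this] at ho
    exact hp.1.one_lt.ne ho
  have hm : h.1 ^ p = 1 := by
    have := congrArg Units.val hpow
    simpa using this
  have hnil : (h.1 - 1) ^ p = 0 := by
    have : (h.1 - 1) ^ p = h.1 ^ p - 1 ^ p := sub_pow_char_of_commute _ (Commute.one_right _)
    rw [this, hm]; simp
  have hnil' : IsNilpotent (h.1 - 1) := ⟨p, hnil⟩
  have htr : (h.1 - 1).trace = 0 := by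
    have := Matrix.isNilpotent_trace_of_isNilpotent hnil'
    exact this.eq_zero
  have hdet : (h.1 - 1).det = 0 := by
    have : (h.1 - 1).det ^ p = 0 := by rw [← Matrix.det_pow, hnil]; simp
    exact pow_eq_zero_iff hp.1.ne_zero |>.1 this
  obtain ⟨x0, x1, c, hx, hc, e⟩ := T_of_trace_det h.1 htr hdet (fun hc => hne (Units.ext hc))
  exact ⟨x0, x1, c, hx, hc, h, hh, e⟩

/-- a matrix of determinant one which fixes a nonzero vector is some `T x z` -/
lemma T_of_fix (k : Matrix (Fin 2) (Fin 2) (ZMod p)) (x0 x1 : ZMod p) (hx : x0 ≠ 0 ∨ x1 ≠ 0)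
    (h0 : k 0 0 * x0 + k 0 1 * x1 = x0) (h1 : k 1 0 * x0 + k 1 1 * x1 = x1)
    (hdet : k 0 0 * k 1 1 - k 0 1 * k 1 0 = 1) : ∃ z, k = (T x0 x1 z).1 := by
  by_cases hx0 : x0 = 0
  · have hx1 : x1 ≠ 0 := by
      rcases hx with h | h
      · exact absurd hx0 h
      · exact h
    subst hx0
    refine ⟨-(k 1 0) / x1 ^ 2, ?_⟩
    have e1 : k 0 1 = 0 := by
      have : k 0 1 * x1 = 0 := by linear_combination h0
      exact (mul_eq_zero.1 this).resolve_right hx1
    have e2 : k 1 1 = 1 := by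
      have : (k 1 1 - 1) * x1 = 0 := by linear_combination h1
      exact sub_eq_zero.1 ((mul_eq_zero.1 this).resolve_right hx1)
    have e3 : k 0 0 = 1 := by rw [e1, e2] at hdet; linear_combination hdet
    rw [T_coe]
    ext i j
    fin_cases i <;> fin_cases j <;> simp
    · exact e3
    · exact e1
    · field_simp
    · exact e2
  · refine ⟨k 0 1 / x0 ^ 2, ?_⟩
    have e0 : k 0 0 = 1 - k 0 1 * x1 / x0 := by field_simp; linear_combination h0
    have e1 : k 1 1 = 1 + k 0 1 * x1 / x0 := by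
      field_simp
      have : (k 0 0 * k 1 1 - k 0 1 * k 1 0) * x0 = x0 := by rw [hdet, one_mul]
      linear_combination this - k 1 1 * h0 + k 0 1 * h1
    have e2 : k 1 0 = -(k 0 1 * x1 ^ 2 / x0 ^ 2) := by
      have : k 1 0 * x0 = x1 - k 1 1 * x1 := by linear_combination h1
      rw [e1] at this
      field_simp
      field_simp at this
      linear_combination this
    rw [T_coe]
    ext i j
    fin_cases i <;> fin_cases j <;> simp
    · rw [e0]; field_simp
    · field_simp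
    · rw [e2]; field_simp
    · rw [e1]; field_simp

lemma T_ne_one (x0 x1 c : ZMod p) (hx : x0 ≠ 0 ∨ x1 ≠ 0) (hc : c ≠ 0) : (T x0 x1 c).1 ≠ 1 := by
  intro h
  rw [T_coe] at h
  have h1 := congrFun (congrFun h 0) 1
  have h2 := congrFun (congrFun h 1) 0
  simp at h1 h2
  rcases hx with hx | hx
  · rcases h1 with h | h
    · exact hc h
    · exact hx h
  · rcases h2 with h | h
    · exact hc h
    · exact hx h

lemma dvd_card_of_T (H : Subgroup (GL (Fin 2) (ZMod p))) (x0 x1 c : ZMod p)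
    (h : GL (Fin 2) (ZMod p)) (hh : h ∈ H) (e : h.1 = (T x0 x1 c).1) (hne : h ≠ 1) :
    p ∣ Nat.card H := by
  have hpow : h ^ p = 1 := by
    apply Units.ext
    rw [Units.val_pow_eq_pow_val, e, ← Matrix.SpecialLinearGroup.coe_pow, T_pow]
    simp [T_zero]
  have ho : orderOf (⟨h, hh⟩ : H) = p := by
    apply orderOf_eq_prime
    · ext1; simpa using hpow
    · intro hc
      exact hne (by simpa using congrArg Subtype.val hc)
  have := orderOf_dvd_natCard (⟨h, hh⟩ : H)
  rwa [ho] at this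

/-- the subgroup of `SL₂(𝔽_p)` of the elements of `H` -/
def slPart (H : Subgroup (GL (Fin 2) (ZMod p))) : Subgroup (SpecialLinearGroup (Fin 2) (ZMod p)) :=
  H.comap Matrix.SpecialLinearGroup.toGL

lemma mem_slPart (H : Subgroup (GL (Fin 2) (ZMod p))) (s : SpecialLinearGroup (Fin 2) (ZMod p)) :
    s ∈ slPart H ↔ ∃ h ∈ H, h.1 = s.1 := by
  constructor
  · intro h
    exact ⟨_, h, rfl⟩
  · rintro ⟨h, hh, e⟩
    have : h = Matrix.SpecialLinearGroup.toGL s := Units.ext e
    show Matrix.SpecialLinearGroup.toGL s ∈ H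
    rwa [← this]

lemma T_all_field (S : Subgroup (SpecialLinearGroup (Fin 2) (ZMod p))) (x0 x1 c : ZMod p)
    (hc : c ≠ 0) (h : T x0 x1 c ∈ S) (z : ZMod p) : T x0 x1 z ∈ S := by
  have : T x0 x1 z = T x0 x1 c ^ (z * c⁻¹).val := by
    rw [T_pow]
    congr 1
    rw [ZMod.natCast_zmod_val, mul_assoc, inv_mul_cancel₀ hc, mul_one]
  rw [this]
  exact S.pow_mem h _

/-- irreducibility and order divisible by `p` give all of `SL₂(𝔽_p)` -/
lemma slPart_eq_top (H : Subgroup (GL (Fin 2) (ZMod p))) (hd : p ∣ Nat.card H)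
    (hirr : ∀ x : Fin 2 → ZMod p, x ≠ 0 → ∃ h ∈ H, ∀ c : ZMod p, h.1 *ᵥ x ≠ c • x) :
    slPart H = ⊤ := by
  obtain ⟨x0, x1, c, hx, hc, h, hh, e⟩ := exists_T_of_dvd H hd
  have hT : T x0 x1 c ∈ slPart H := (mem_slPart H _).2 ⟨h, hh, e⟩
  obtain ⟨g, hg, hgx⟩ := hirr ![x0, x1] (by
    intro h0
    have h1 := congrFun h0 0
    have h2 := congrFun h0 1
    simp at h1 h2
    rcases hx with hx | hx
    · exact hx h1
    · exact hx h2)
  set y0 := g.1 0 0 * x0 + g.1 0 1 * x1 with hy0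
  set y1 := g.1 1 0 * x0 + g.1 1 1 * x1 with hy1
  have hgy : g.1 *ᵥ ![x0, x1] = ![y0, y1] := by
    ext i
    fin_cases i <;> simp [Matrix.mulVec, dotProduct, Fin.sum_univ_two, hy0, hy1]
  have hu : x0 * y1 - x1 * y0 ≠ 0 := by
    intro h0
    rw [hgy] at hgx
    by_cases hx0 : x0 = 0
    · have hx1 : x1 ≠ 0 := by
        rcases hx with h | h
        · exact absurd hx0 h
        · exact h
      have : y0 = 0 := by
        rw [hx0] at h0
        have : x1 * y0 = 0 := by linear_combination -h0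
        exact (mul_eq_zero.1 this).resolve_left hx1
      apply hgx (y1 / x1)
      ext i
      fin_cases i
      · simp [this, hx0]
      · simp [hx1]
    · apply hgx (y0 / x0)
      ext i
      fin_cases i
      · simp; field_simp
      · simp; field_simp; linear_combination h0
  refine gen_T _ x0 x1 y0 y1 (isUnit_iff_ne_zero.2 hu) (T_all_field _ _ _ c hc hT) ?_
  have hdg : g.1.det ≠ 0 := by
    have := (Matrix.isUnit_iff_isUnit_det _).1 g.isUnit
    exact this.ne_zero
  apply T_all_field _ _ _ (c * g.1.det⁻¹) (mul_ne_zero hc (inv_ne_zero hdg))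
  rw [mem_slPart]
  refine ⟨g * h * g⁻¹, H.mul_mem (H.mul_mem hg hh) (H.inv_mem hg), ?_⟩
  have hc' := T_conj g.1 x0 x1 c (c * g.1.det⁻¹) (by rw [mul_assoc, inv_mul_cancel₀ hdg, mul_one])
  have : (g * h * g⁻¹).1 = g.1 * h.1 * (g⁻¹).1 := rfl
  rw [this, e, hc', mul_assoc]
  have hgg : g.1 * (g⁻¹).1 = 1 := by
    have := congrArg Units.val (mul_inv_cancel g)
    simpa using this
  rw [hgg, mul_one]

/-- a subgroup containing all commutators is everything, `p ≥ 5` -/
lemma eq_top_of_commutators (hp5 : 5 ≤ p) (S : Subgroup (SpecialLinearGroup (Fin 2) (ZMod p)))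
    (h : ∀ a b : SpecialLinearGroup (Fin 2) (ZMod p), a * b * a⁻¹ * b⁻¹ ∈ S) : S = ⊤ := by
  have h2 : (2 : ZMod p) ≠ 0 := by
    intro h0
    have : ((2 : ℕ) : ZMod p) = 0 := by exact_mod_cast h0
    rw [ZMod.natCast_eq_zero_iff] at this
    have := Nat.le_of_dvd (by norm_num) this
    omega
  have h3 : (3 : ZMod p) ≠ 0 := by
    intro h0
    have : ((3 : ℕ) : ZMod p) = 0 := by exact_mod_cast h0
    rw [ZMod.natCast_eq_zero_iff] at this
    have := Nat.le_of_dvd (by norm_num) this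
    omega
  let D : SpecialLinearGroup (Fin 2) (ZMod p) := ⟨!![2, 0; 0, 2⁻¹], by
    rw [Matrix.det_fin_two_of]; field_simp; ring⟩
  have hD : D.1 = !![2, 0; 0, 2⁻¹] := rfl
  apply sl2_gen
  · intro z
    have e : E z = D * E (z / 3) * D⁻¹ * (E (z / 3))⁻¹ := by
      rw [eq_mul_inv_iff_mul_eq, eq_mul_inv_iff_mul_eq]
      apply Subtype.ext
      rw [Matrix.SpecialLinearGroup.coe_mul, Matrix.SpecialLinearGroup.coe_mul,
        Matrix.SpecialLinearGroup.coe_mul, hD, E_coe, E_coe, Matrix.mul_fin_two,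
        Matrix.mul_fin_two, Matrix.mul_fin_two]
      apply m2ext
      · ring
      · field_simp; ring
      · ring
      · ring
    rw [e]; exact h _ _
  · intro z
    have e : F z = D * F (-(4 * z) / 3) * D⁻¹ * (F (-(4 * z) / 3))⁻¹ := by
      rw [eq_mul_inv_iff_mul_eq, eq_mul_inv_iff_mul_eq]
      apply Subtype.ext
      rw [Matrix.SpecialLinearGroup.coe_mul, Matrix.SpecialLinearGroup.coe_mul,
        Matrix.SpecialLinearGroup.coe_mul, hD, F_coe, F_coe, Matrix.mul_fin_two,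
        Matrix.mul_fin_two, Matrix.mul_fin_two]
      apply m2ext
      · ring
      · ring
      · field_simp; ring
      · ring
    rw [e]; exact h _ _

end Pool.Agent.Lib.MP_4e0942_nt
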