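import Mathlib

/-!
Closed subgroups of `SL₂(ℤ_p)`: generation by unipotents and the lifting lemma.
-/

namespace Pool.Agent.Lib.MP_4e0942_nt

open Matrix Polynomial

/-- upper unipotent matrix -/
def E {R : Type*} [CommRing R] (z : R) : SpecialLinearGroup (Fin 2) R :=
  ⟨!![1, z; 0, 1], by simp [Matrix.det_fin_two]⟩

/-- lower unipotent matrix -/
def F {R : Type*} [CommRing R] (z : R) : SpecialLinearGroup (Fin 2) R :=
  ⟨!![1, 0; z, 1], by simp [Matrix.det_fin_two]⟩

lemma E_coe {R : Type*} [CommRing R] (z : R) : (E z).1 = !![1, z; 0, 1] := rfl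

lemma F_coe {R : Type*} [CommRing R] (z : R) : (F z).1 = !![1, 0; z, 1] := rfl

lemma sl2_gen {R : Type*} [CommRing R] [IsLocalRing R] (S : Subgroup (SpecialLinearGroup (Fin 2) R))
    (hE : ∀ z, E z ∈ S) (hF : ∀ z, F z ∈ S) : S = ⊤ := by
  have key : ∀ g : SpecialLinearGroup (Fin 2) R, IsUnit (g.1 1 0) → g ∈ S := by
    intro g hu
    obtain ⟨c, hc⟩ := hu
    have hdet := g.2
    rw [Matrix.det_fin_two] at hdet
    have e : g = E ((g.1 0 0 - 1) * ↑c⁻¹) * F (g.1 1 0) * E ((g.1 1 1 - 1) * ↑c⁻¹) := by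
      have h1 : (g.1 1 0) * ↑c⁻¹ = 1 := by rw [← hc]; simp
      apply Subtype.ext
      rw [Matrix.SpecialLinearGroup.coe_mul, Matrix.SpecialLinearGroup.coe_mul, E_coe, F_coe, E_coe]
      ext i j
      fin_cases i <;> fin_cases j <;>
        simp [Matrix.mul_apply, Fin.sum_univ_two]
      · linear_combination (-(g.1 0 0 - 1)) * h1
      · linear_combination (-(g.1 0 1) - (g.1 0 0 - 1) * (g.1 1 1 - 1) * (↑c⁻¹ : R)) * h1 -
          (↑c⁻¹ : R) * hdet
      · linear_combination (-(g.1 1 1 - 1)) * h1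
    rw [e]
    exact S.mul_mem (S.mul_mem (hE _) (hF _)) (hE _)
  rw [eq_top_iff]
  intro g _
  by_cases h : IsUnit (g.1 1 0)
  · exact key g h
  · have hdet := g.2
    rw [Matrix.det_fin_two] at hdet
    have ha : IsUnit (g.1 0 0) := by
      by_contra hna
      have h1 : g.1 0 0 ∈ IsLocalRing.maximalIdeal R := hna
      have h2 : g.1 1 0 ∈ IsLocalRing.maximalIdeal R := h
      have h3 : (1 : R) ∈ IsLocalRing.maximalIdeal R := by
        rw [← hdet]
        exact Ideal.sub_mem _ (Ideal.mul_mem_right _ _ h1) (Ideal.mul_mem_left _ _ h2)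
      exact (IsLocalRing.maximalIdeal.isMaximal R).ne_top ((Ideal.eq_top_iff_one _).2 h3)
    have hac : IsUnit (g.1 0 0 + g.1 1 0) := by
      by_contra hna
      have h1 : g.1 0 0 + g.1 1 0 ∈ IsLocalRing.maximalIdeal R := hna
      have h2 : g.1 1 0 ∈ IsLocalRing.maximalIdeal R := h
      have h3 : g.1 0 0 ∈ IsLocalRing.maximalIdeal R := by
        have := Ideal.sub_mem _ h1 h2
        simpa using this
      exact h3 ha
    have hk : F 1 * g ∈ S := by
      apply key
      have : (F 1 * g).1 1 0 = g.1 0 0 + g.1 1 0 := by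
        rw [Matrix.SpecialLinearGroup.coe_mul, F_coe]
        simp [Matrix.mul_apply, Fin.sum_univ_two]
      rw [this]; exact hac
    have := S.mul_mem (S.inv_mem (hF 1)) hk
    simpa using this

lemma sl2_gen' {R : Type*} [CommRing R] [IsLocalRing R] (S : Subgroup (SpecialLinearGroup (Fin 2) R))
    (P : SpecialLinearGroup (Fin 2) R)
    (hE : ∀ z, P * E z * P⁻¹ ∈ S) (hF : ∀ z, P * F z * P⁻¹ ∈ S) : S = ⊤ := by
  have h := sl2_gen (S.comap (MulAut.conj P).toMonoidHom)
    (fun z => by simpa [Subgroup.mem_comap] using hE z)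
    (fun z => by simpa [Subgroup.mem_comap] using hF z)
  rw [eq_top_iff]
  intro g _
  have : P⁻¹ * g * P ∈ S.comap (MulAut.conj P).toMonoidHom := by rw [h]; trivial
  rw [Subgroup.mem_comap] at this
  have e : (MulAut.conj P).toMonoidHom (P⁻¹ * g * P) = g := by
    simp [MulAut.conj_apply, mul_assoc]
  rwa [e] at this

end Pool.Agent.Lib.MP_4e0942_nt
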