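import Pool.Agent.Lib.MP_4e0942_nt.SL2

/-!
Unipotent elements `T x z = 1 + z N_x` of `SL₂` and closed subgroups of `SL₂(ℤ_p)`.
-/

namespace Pool.Agent.Lib.MP_4e0942_nt

open Matrix

section general

variable {R : Type*} [CommRing R]

omit [CommRing R] in
lemma m2ext {a b c d a' b' c' d' : R} (h1 : a = a') (h2 : b = b') (h3 : c = c') (h4 : d = d') :
    (!![a, b; c, d] : Matrix (Fin 2) (Fin 2) R) = !![a', b'; c', d'] := by
  subst h1 h2 h3 h4; rfl

/-- the unipotent `1 + z x ⊗ (-x₁, x₀)` -/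
def T (x0 x1 z : R) : SpecialLinearGroup (Fin 2) R :=
  ⟨!![1 - z * x0 * x1, z * x0 ^ 2; -(z * x1 ^ 2), 1 + z * x0 * x1], by
    rw [Matrix.det_fin_two_of]; ring⟩

lemma T_coe (x0 x1 z : R) :
    (T x0 x1 z).1 = !![1 - z * x0 * x1, z * x0 ^ 2; -(z * x1 ^ 2), 1 + z * x0 * x1] := rfl

lemma T_mul (x0 x1 z w : R) : T x0 x1 z * T x0 x1 w = T x0 x1 (z + w) := by
  apply Subtype.ext
  rw [Matrix.SpecialLinearGroup.coe_mul, T_coe, T_coe, T_coe, Matrix.mul_fin_two]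
  apply m2ext <;> ring

lemma T_zero (x0 x1 : R) : T x0 x1 (0 : R) = 1 := by
  apply Subtype.ext
  rw [T_coe]
  ext i j
  fin_cases i <;> fin_cases j <;> simp

lemma T_pow (x0 x1 z : R) (k : ℕ) : T x0 x1 z ^ k = T x0 x1 (k * z) := by
  induction k with
  | zero => simp [T_zero]
  | succ k ih => rw [pow_succ, ih, T_mul]; congr 1; push_cast; ring

lemma T_conj (g : Matrix (Fin 2) (Fin 2) R) (x0 x1 z w : R) (h : w * g.det = z) :
    g * (T x0 x1 z).1 = (T (g 0 0 * x0 + g 0 1 * x1) (g 1 0 * x0 + g 1 1 * x1) w).1 * g := by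
  subst h
  rw [T_coe, T_coe, Matrix.det_fin_two]
  ext i j
  fin_cases i <;> fin_cases j <;> simp [Matrix.mul_apply, Fin.sum_univ_two] <;> ring

lemma gen_T [IsLocalRing R] (S : Subgroup (SpecialLinearGroup (Fin 2) R)) (x0 x1 y0 y1 : R)
    (hu : IsUnit (x0 * y1 - x1 * y0)) (hx : ∀ z, T x0 x1 z ∈ S) (hy : ∀ z, T y0 y1 z ∈ S) :
    S = ⊤ := by
  obtain ⟨u, hu⟩ := hu
  have hu1 : (↑u⁻¹ : R) * (x0 * y1 - x1 * y0) = 1 := by rw [← hu]; simp
  let P : SpecialLinearGroup (Fin 2) R := ⟨!![x0, y0 * ↑u⁻¹; x1, y1 * ↑u⁻¹], by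
    rw [Matrix.det_fin_two_of]; linear_combination hu1⟩
  have hP : P.1 = !![x0, y0 * ↑u⁻¹; x1, y1 * ↑u⁻¹] := rfl
  apply sl2_gen' S P
  · intro z
    have e : P * E z * P⁻¹ = T x0 x1 z := by
      rw [mul_inv_eq_iff_eq_mul]
      apply Subtype.ext
      rw [Matrix.SpecialLinearGroup.coe_mul, Matrix.SpecialLinearGroup.coe_mul, E_coe, T_coe, hP,
        Matrix.mul_fin_two, Matrix.mul_fin_two]
      apply m2ext
      · ring
      · linear_combination (-(z * x0)) * hu1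
      · ring
      · linear_combination (-(z * x1)) * hu1
    rw [e]; exact hx z
  · intro z
    have e : P * F z * P⁻¹ = T y0 y1 (-(z * ↑u⁻¹ ^ 2)) := by
      rw [mul_inv_eq_iff_eq_mul]
      apply Subtype.ext
      rw [Matrix.SpecialLinearGroup.coe_mul, Matrix.SpecialLinearGroup.coe_mul, F_coe, T_coe, hP,
        Matrix.mul_fin_two, Matrix.mul_fin_two]
      apply m2ext
      · linear_combination (-(z * y0 * ↑u⁻¹)) * hu1
      · ring
      · linear_combination (-(z * y1 * ↑u⁻¹)) * hu1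
      · ring
    rw [e]; exact hy _

end general

end Pool.Agent.Lib.MP_4e0942_nt
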